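import Pool.Agent.TH107.LB.W
import Pool.Agent.Helper611.PcGrp

set_option autoImplicit false

/-!
Divisible elements act with finite order on polycyclic-by-finite normal subgroups.
-/

namespace Pool.Agent.H92.Bs

open Pool.Agent.TH107.LB (RP)

universe u v w

/-- finitely generated abelian groups -/
theorem rp_comm (A : Type v) [CommGroup A] [Group.FG A] {p : ℕ} (hp : p.Prime) : RP p A := by
  classical
  obtain ⟨ι, j, hι, hj, q, hq, e, ⟨φ⟩⟩ := CommGroup.equiv_free_prod_prod_multiplicative_zmod A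
  have hne : ∀ i, NeZero (q i ^ e i) := fun i => ⟨pow_ne_zero _ (hq i).ne_zero⟩
  let B := (i : ι) → Multiplicative (ZMod (q i ^ e i))
  have hB : Finite B := by
    have : ∀ i, Finite (Multiplicative (ZMod (q i ^ e i))) := fun i =>
      inferInstanceAs (Finite (ZMod (q i ^ e i)))
    infer_instance
  let β : A →* B := (MonoidHom.snd _ _).comp φ.toMonoidHom
  refine ⟨β.ker, inferInstance, Subgroup.finiteIndex_ker β, fun g hg => ?_⟩
  by_cases hgβ : g ∈ β.ker
  swap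
  · exact ⟨β.ker, inferInstance, Subgroup.finiteIndex_ker β, ⟨0, fun h hh => by simpa using hh⟩,
      hgβ⟩
  have h1 : (φ g).1 ≠ 1 := by
    intro h1
    apply hg
    apply φ.injective
    rw [map_one]
    exact Prod.ext h1 (MonoidHom.mem_ker.1 hgβ)
  obtain ⟨i, hi⟩ : ∃ i, (φ g).1 i ≠ 1 := by
    by_contra hcon
    push Not at hcon
    exact h1 (funext hcon)
  let z : A → ℤ := fun a => Multiplicative.toAdd ((φ a).1 i)
  have hz : z g ≠ 0 := fun h => hi h
  -- a power of p that does not divide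
  obtain ⟨n, hn⟩ : ∃ n : ℕ, ¬ ((p ^ n : ℕ) : ℤ) ∣ z g := by
    refine ⟨(z g).natAbs, fun hd => ?_⟩
    have h2 : p ^ (z g).natAbs ∣ (z g).natAbs := by
      rw [← Int.natAbs_dvd_natAbs] at hd
      simpa using hd
    have h3 := Nat.le_of_dvd (Int.natAbs_pos.2 hz) h2
    exact absurd h3 (not_le.2 (Nat.lt_pow_self hp.one_lt))
  have hpn : NeZero (p ^ n) := ⟨pow_ne_zero _ hp.ne_zero⟩
  let c : A →* Multiplicative (ZMod (p ^ n)) :=
    (AddMonoidHom.toMultiplicative (Int.castAddHom (ZMod (p ^ n)))).comp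
      ((Pi.evalMonoidHom (fun _ : j => Multiplicative ℤ) i).comp
        ((MonoidHom.fst _ _).comp φ.toMonoidHom))
  have hfin : Finite (Multiplicative (ZMod (p ^ n))) := inferInstanceAs (Finite (ZMod (p ^ n)))
  have hc : ∀ a, c a = Multiplicative.ofAdd ((z a : ℤ) : ZMod (p ^ n)) := fun a => rfl
  refine ⟨c.ker, inferInstance, Subgroup.finiteIndex_ker c, ⟨n, fun h _ => ?_⟩, fun h => ?_⟩
  · rw [MonoidHom.mem_ker, map_pow]
    have h2 : Nat.card (Multiplicative (ZMod (p ^ n))) = p ^ n := by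
      have : Nat.card (ZMod (p ^ n)) = p ^ n := Nat.card_zmod _
      exact this
    have h3 : ∀ x : Multiplicative (ZMod (p ^ n)), x ^ p ^ n = 1 := by
      intro x
      have h4 : x ^ Nat.card (Multiplicative (ZMod (p ^ n))) = 1 := pow_card_eq_one'
      rwa [h2] at h4
    exact h3 _
  · apply hn
    rw [MonoidHom.mem_ker, hc] at h
    have h2 : ((z g : ℤ) : ZMod (p ^ n)) = 0 := h
    exact (ZMod.intCast_zmod_eq_zero_iff_dvd _ _).1 h2

/-- infinitely divisible elements have bounded order -/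
theorem exists_exp {Γ : Type v} [Group Γ] {p : ℕ} (h : RP p Γ) :
    ∃ t : ℕ, 1 ≤ t ∧ ∀ x : Γ, (∀ i : ℕ, ∃ w : Γ, w ^ p ^ i = x) → x ^ t = 1 := by
  obtain ⟨N, hN, hf, hsep⟩ := h
  refine ⟨N.index, Nat.one_le_iff_ne_zero.2 hf.index_ne_zero, fun x hx => ?_⟩
  by_contra hne
  obtain ⟨K, hK, _, ⟨e, he⟩, hgK⟩ := hsep _ hne
  apply hgK
  obtain ⟨w, rfl⟩ := hx e
  rw [← pow_mul, mul_comm, pow_mul]
  exact he _ (N.pow_index_mem _)

section

variable {G : Type v} [Group G]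

/-- divisible elements have powers that centralise `N` -/
def Act (N : Subgroup G) : Prop :=
  ∀ (p j : ℕ) (h : G), p.Prime → 1 ≤ j → IsConj h (h ^ p ^ j) →
    ∃ r : ℕ, 1 ≤ r ∧ ∀ n ∈ N, h ^ r * n = n * h ^ r

lemma conj_iter {y h : G} {q : ℕ} (hy : y * h * y⁻¹ = h ^ q) (i : ℕ) :
    y ^ i * h * (y ^ i)⁻¹ = h ^ q ^ i := by
  induction i with
  | zero => simp
  | succ i ih =>
    have e1 : y ^ (i + 1) * h * (y ^ (i + 1))⁻¹ = y * (y ^ i * h * (y ^ i)⁻¹) * y⁻¹ := by
      rw [pow_succ']; group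
    rw [e1, ih, ← conj_pow, hy, ← pow_mul, ← pow_succ']

lemma conj_iter' {y h : G} {q : ℕ} (hy : y * h * y⁻¹ = h ^ q) (i : ℕ) :
    ((y ^ i)⁻¹ * h * y ^ i) ^ q ^ i = h := by
  have h1 := conj_iter hy i
  have h2 : ((y ^ i)⁻¹ * h * y ^ i) ^ q ^ i = (y ^ i)⁻¹ * h ^ q ^ i * y ^ i := by
    have h3 := conj_pow (i := q ^ i) (a := (y ^ i)⁻¹) (b := h)
    rw [inv_inv] at h3
    exact h3
  rw [h2, ← h1]
  group

/-- the action on an abelian or finite normal subgroup -/
theorem act_self (K : Subgroup G) [K.Normal]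
    (hK : Finite K ∨ ((∀ a ∈ K, ∀ b ∈ K, a * b = b * a) ∧ K.FG)) : Act K := by
  intro p j h hp hj hc
  obtain ⟨y, hy⟩ := isConj_iff.1 hc
  have key : ∃ s : ℕ, 1 ≤ s ∧ (MulAut.conjNormal h : MulAut K) ^ s = 1 := by
    rcases hK with hK | ⟨hab, hfg⟩
    · have hfin : Finite (MulAut K) :=
        Finite.of_injective (fun σ : MulAut K => (σ : K → K)) DFunLike.coe_injective
      exact ⟨orderOf (MulAut.conjNormal h : MulAut K), orderOf_pos _, pow_orderOf_eq_one _⟩
    · let _ : CommGroup K := { (inferInstance : Group K) with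
        mul_comm := fun a b => Subtype.ext (hab a a.2 b b.2) }
      have hfg' : Group.FG K := (Group.fg_iff_subgroup_fg K).2 hfg
      have h1 : RP p K := rp_comm K hp
      obtain ⟨t, ht, h2⟩ := exists_exp (h1.aut hp)
      refine ⟨t, ht, h2 _ fun i => ?_⟩
      refine ⟨(MulAut.conjNormal ((y ^ i)⁻¹ * h * y ^ i) : MulAut K) ^ p ^ (j * i - i), ?_⟩
      have e1 : p ^ (j * i - i) * p ^ i = (p ^ j) ^ i := by
        rw [← pow_add, ← pow_mul]
        congr 1
        have : i ≤ j * i := Nat.le_mul_of_pos_left i (by omega)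
        omega
      rw [← pow_mul, e1, ← map_pow, conj_iter' hy]
  obtain ⟨s, hs, h1⟩ := key
  refine ⟨s, hs, fun n hn => ?_⟩
  rw [← map_pow] at h1
  have h2 : ((MulAut.conjNormal (h ^ s) : MulAut K) ⟨n, hn⟩ : G) = n := by rw [h1]; rfl
  rw [MulAut.conjNormal_apply] at h2
  have h3 : h ^ s * n * (h ^ s)⁻¹ = n := h2
  exact mul_inv_eq_iff_eq_mul.1 h3

/-- extensions -/
theorem act_step (K N : Subgroup G) [K.Normal] [N.Normal]
    (hK : Finite K ∨ ((∀ a ∈ K, ∀ b ∈ K, a * b = b * a) ∧ K.FG))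
    (hQ : Act (N.map (QuotientGroup.mk' K))) : Act N := by
  intro p j h hp hj hc
  obtain ⟨y, hy⟩ := isConj_iff.1 hc
  obtain ⟨s, hs, h1⟩ := act_self K hK p j h hp hj hc
  obtain ⟨r, hr, h2⟩ := hQ p j (QuotientGroup.mk' K h) hp hj (by
    rw [← map_pow]
    exact MonoidHom.map_isConj _ hc)
  set g := h ^ (r * s) with hg
  have hgK : ∀ d ∈ K, g * d = d * g := by
    have h3 : ∀ i : ℕ, ∀ d ∈ K, (h ^ s) ^ i * d = d * (h ^ s) ^ i := by
      intro i
      induction i with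
      | zero => intro d _; simp
      | succ i ih =>
        intro d hd
        rw [pow_succ, mul_assoc, h1 d hd, ← mul_assoc, ih d hd, mul_assoc]
    intro d hd
    rw [hg, mul_comm r s, pow_mul]
    exact h3 r d hd
  have hgN : ∀ n ∈ N, g * n * g⁻¹ * n⁻¹ ∈ K := by
    intro n hn
    rw [← QuotientGroup.eq_one_iff]
    have h3 : ∀ i : ℕ, ((QuotientGroup.mk' K h) ^ r) ^ i * QuotientGroup.mk' K n =
        QuotientGroup.mk' K n * ((QuotientGroup.mk' K h) ^ r) ^ i := by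
      intro i
      induction i with
      | zero => simp
      | succ i ih =>
        rw [pow_succ, mul_assoc, h2 _ ⟨n, hn, rfl⟩, ← mul_assoc, ih, mul_assoc]
    have h4 := h3 s
    rw [← pow_mul, ← map_pow, ← hg, ← map_mul, ← map_mul] at h4
    have h5 : (QuotientGroup.mk (g * n) : G ⧸ K) = QuotientGroup.mk (n * g) := h4
    have e1 : g * n * g⁻¹ * n⁻¹ = g * n * (n * g)⁻¹ := by group
    rw [e1, QuotientGroup.mk_mul, QuotientGroup.mk_inv, h5, mul_inv_cancel]
  -- powers of g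
  have hpow : ∀ n ∈ N, ∀ i : ℕ, g ^ i * n * (g ^ i)⁻¹ = (g * n * g⁻¹ * n⁻¹) ^ i * n := by
    intro n hn i
    induction i with
    | zero => simp
    | succ i ih =>
      have e1 : g ^ (i + 1) * n * (g ^ (i + 1))⁻¹ = g * (g ^ i * n * (g ^ i)⁻¹) * g⁻¹ := by
        rw [pow_succ']; group
      have hd := K.pow_mem (hgN n hn) i
      rw [e1, ih]
      have e2 : g * ((g * n * g⁻¹ * n⁻¹) ^ i * n) * g⁻¹ =
          (g * (g * n * g⁻¹ * n⁻¹) ^ i) * n * g⁻¹ := by group
      rw [e2, hgK _ hd, pow_succ]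
      group
  have hfinal : ∃ t : ℕ, 1 ≤ t ∧ ∀ n ∈ N, (g * n * g⁻¹ * n⁻¹) ^ t = 1 := by
    rcases hK with hK | ⟨hab, hfg⟩
    · refine ⟨Nat.card K, Nat.card_pos, fun n hn => ?_⟩
      have h3 : (⟨_, hgN n hn⟩ : K) ^ Nat.card K = 1 := pow_card_eq_one'
      exact congrArg Subtype.val h3
    · let _ : CommGroup K := { (inferInstance : Group K) with
        mul_comm := fun a b => Subtype.ext (hab a a.2 b b.2) }
      have hfg' : Group.FG K := (Group.fg_iff_subgroup_fg K).2 hfg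
      have h3 : RP p K := rp_comm K hp
      obtain ⟨t, ht, h4⟩ := exists_exp h3
      refine ⟨t, ht, fun n hn => ?_⟩
      have hyg : y * g * y⁻¹ = g ^ p ^ j := by
        rw [hg, ← conj_pow, hy, ← pow_mul, ← pow_mul, mul_comm]
      have h5 := h4 ⟨_, hgN n hn⟩ (fun i => ?_)
      · exact congrArg Subtype.val h5
      · have hni : y ^ i * n * (y ^ i)⁻¹ ∈ N := Subgroup.Normal.conj_mem inferInstance n hn _
        have h6 := hpow _ hni ((p ^ j) ^ i)
        rw [← conj_iter hyg i] at h6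
        set d := g * (y ^ i * n * (y ^ i)⁻¹) * g⁻¹ * (y ^ i * n * (y ^ i)⁻¹)⁻¹ with hd
        have hdK : (y ^ i)⁻¹ * d * y ^ i ∈ K := by
          have h7 := Subgroup.Normal.conj_mem (inferInstance : K.Normal) d (hgN _ hni) (y ^ i)⁻¹
          rwa [inv_inv] at h7
        refine ⟨⟨_, hdK⟩ ^ p ^ (j * i - i), Subtype.ext ?_⟩
        have e1 : p ^ (j * i - i) * p ^ i = (p ^ j) ^ i := by
          rw [← pow_add, ← pow_mul]
          congr 1
          have : i ≤ j * i := Nat.le_mul_of_pos_left i (by omega)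
          omega
        rw [← pow_mul, e1]
        change ((y ^ i)⁻¹ * d * y ^ i) ^ (p ^ j) ^ i = g * n * g⁻¹ * n⁻¹
        have e2 : ((y ^ i)⁻¹ * d * y ^ i) ^ (p ^ j) ^ i = (y ^ i)⁻¹ * d ^ (p ^ j) ^ i * y ^ i := by
          have h8 := conj_pow (i := (p ^ j) ^ i) (a := (y ^ i)⁻¹) (b := d)
          rw [inv_inv] at h8
          exact h8
        have e3 : d ^ (p ^ j) ^ i = y ^ i * g * (y ^ i)⁻¹ * (y ^ i * n * (y ^ i)⁻¹) *
            (y ^ i * g * (y ^ i)⁻¹)⁻¹ * (y ^ i * n * (y ^ i)⁻¹)⁻¹ := by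
          rw [h6]; group
        rw [e2, e3]
        group
  obtain ⟨t, ht, h3⟩ := hfinal
  refine ⟨r * s * t, Nat.mul_pos (Nat.mul_pos hr hs) ht, fun n hn => ?_⟩
  have h4 := hpow n hn t
  rw [h3 n hn, one_mul, hg, ← pow_mul] at h4
  exact mul_inv_eq_iff_eq_mul.1 h4

end

end Pool.Agent.H92.Bs
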