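import Pool.Agent.H92.Bs.Spl

set_option autoImplicit false

/-!
Finite quotients of virtually split extensions with virtually solvable noetherian kernel.
-/

namespace Pool.Agent.H92.Bs

open Pool.Agent.Helper611.PcGrp (MaxC exists_avoid)
open Pool.Agent.TH107.LB (core core_char core_fi core_le)

universe u v w

/-- virtually solvable groups all of whose subgroups are finitely generated -/
def VS (Γ : Type v) [Group Γ] : Prop :=
  MaxC Γ ∧ ∃ S : Subgroup Γ, S.FiniteIndex ∧ Group.IsSolvable S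

theorem finiteIndex_comap {Γ : Type v} {Δ : Type w} [Group Γ] [Group Δ] (f : Γ →* Δ)
    (S : Subgroup Δ) (hS : S.FiniteIndex) : (S.comap f).FiniteIndex := by
  have h1 : (S.subgroupOf f.range).FiniteIndex := inferInstance
  refine ⟨?_⟩
  rw [Subgroup.index_comap]
  exact h1.index_ne_zero

theorem VS.of_injective {Γ : Type v} {Δ : Type w} [Group Γ] [Group Δ] (h : VS Γ) (f : Δ →* Γ)
    (hf : Function.Injective f) : VS Δ := by
  obtain ⟨h1, S, hS, hs⟩ := h
  refine ⟨h1.of_injective f hf, S.comap f, finiteIndex_comap f S hS, ?_⟩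
  have h2 : Function.Injective (f.subgroupComap S) := by
    intro x y hxy
    apply Subtype.ext
    apply hf
    exact congrArg Subtype.val hxy
  exact Group.isSolvable_of_isSolvable_injective h2

theorem VS.of_surjective {Γ : Type v} {Δ : Type w} [Group Γ] [Group Δ] (h : VS Γ) (f : Γ →* Δ)
    (hf : Function.Surjective f) : VS Δ := by
  obtain ⟨h1, S, hS, hs⟩ := h
  refine ⟨h1.of_surjective f hf, S.map f, ?_, ?_⟩
  · refine ⟨?_⟩
    have h2 := Subgroup.index_map_dvd S hf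
    intro h3
    rw [h3] at h2
    exact hS.index_ne_zero (Nat.eq_zero_of_zero_dvd h2)
  · exact Group.isSolvable_of_surjective (f := f.subgroupMap S) (f.subgroupMap_surjective S)

/-- residual finiteness -/
theorem VS.avoid {Γ : Type v} [Group Γ] (h : VS Γ) (x : Γ) (hx : x ≠ 1) :
    ∃ T : Subgroup Γ, T.FiniteIndex ∧ x ∉ T := by
  obtain ⟨h1, S, hS, hs⟩ := h
  by_cases hxS : x ∈ S
  · obtain ⟨T, hT, hxT⟩ := exists_avoid (h1.of_injective S.subtype S.subtype_injective) hs ⟨x, hxS⟩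
      (fun h => hx (congrArg Subtype.val h))
    refine ⟨T.map S.subtype, ⟨?_⟩, ?_⟩
    · rw [Subgroup.index_map_subtype]
      exact Nat.mul_ne_zero hT.index_ne_zero hS.index_ne_zero
    · rintro ⟨y, hy, hyx⟩
      apply hxT
      have h2 : y = ⟨x, hxS⟩ := Subtype.ext hyx
      rw [← h2]
      exact hy
  · exact ⟨S, hS, hxS⟩

theorem VS.avoid_finite {Γ : Type v} [Group Γ] (h : VS Γ) (s : Set Γ) (hf : s.Finite)
    (h1 : (1 : Γ) ∉ s) : ∃ T : Subgroup Γ, T.FiniteIndex ∧ ∀ x ∈ s, x ∉ T := by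
  have : Finite s := hf
  have h2 : ∀ x : s, ∃ T : Subgroup Γ, T.FiniteIndex ∧ (x : Γ) ∉ T := fun x =>
    h.avoid x (fun h => h1 (h ▸ x.2))
  choose T hT1 hT2 using h2
  have hfi : (⨅ x, T x).FiniteIndex := Subgroup.finiteIndex_iInf hT1
  refine ⟨⨅ x, T x, hfi, fun x hx hxT => ?_⟩
  rw [Subgroup.mem_iInf] at hxT
  exact hT2 ⟨x, hx⟩ (hxT ⟨x, hx⟩)

section

variable {G : Type v} [Group G]

/-- joins with a subgroup -/
theorem relIndex_sup_ne (N₀ N M : Subgroup G) [N.Normal]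
    (h : N₀.relIndex N ≠ 0) : (N₀ ⊔ M).relIndex (N ⊔ M) ≠ 0 := by
  have hfin : Finite (N ⧸ N₀.subgroupOf N) := Nat.finite_of_card_ne_zero h
  let f : (N ⧸ N₀.subgroupOf N) → (↥(N ⊔ M) ⧸ (N₀ ⊔ M).subgroupOf (N ⊔ M)) := fun a =>
    QuotientGroup.mk ⟨(a.out : N), Subgroup.mem_sup_left a.out.2⟩
  have hf : Function.Surjective f := by
    intro x
    obtain ⟨⟨x, hx⟩, rfl⟩ := QuotientGroup.mk_surjective x
    obtain ⟨n, hn, m, hm, rfl⟩ := Subgroup.mem_sup_of_normal_left.1 hx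
    refine ⟨QuotientGroup.mk ⟨n, hn⟩, ?_⟩
    apply QuotientGroup.eq.2
    rw [Subgroup.mem_subgroupOf]
    have h1 : (QuotientGroup.mk (⟨n, hn⟩ : N) : N ⧸ N₀.subgroupOf N).out⁻¹ * ⟨n, hn⟩ ∈
        N₀.subgroupOf N := QuotientGroup.eq.1 (Quotient.out_eq' _)
    rw [Subgroup.mem_subgroupOf] at h1
    set a : N := (QuotientGroup.mk (⟨n, hn⟩ : N) : N ⧸ N₀.subgroupOf N).out with ha
    change (a : G)⁻¹ * (n * m) ∈ N₀ ⊔ M
    have h2 : (a : G)⁻¹ * n ∈ N₀ := h1
    rw [← mul_assoc]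
    exact (N₀ ⊔ M).mul_mem (Subgroup.mem_sup_left h2) (Subgroup.mem_sup_right hm)
  have h2 : Finite (↥(N ⊔ M) ⧸ (N₀ ⊔ M).subgroupOf (N ⊔ M)) := Finite.of_surjective f hf
  exact Nat.card_pos.ne'

theorem relIndex_sup_ne' (N M₀ M : Subgroup G) [N.Normal]
    (h : M₀.relIndex M ≠ 0) : (N ⊔ M₀).relIndex (N ⊔ M) ≠ 0 := by
  have h1 := Subgroup.relIndex_map_map (QuotientGroup.mk' N) M₀ M
  rw [QuotientGroup.ker_mk', sup_comm M₀, sup_comm M] at h1
  rw [← h1, ← Subgroup.relIndex_comap]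
  intro h2
  have h3 := Subgroup.relIndex_dvd_of_le_left M (Subgroup.le_comap_map (QuotientGroup.mk' N) M₀)
  rw [h2] at h3
  exact h (Nat.eq_zero_of_zero_dvd h3)

/-- subgroups of finite index of the kernel are detected by finite quotients -/
theorem exists_sub (N M K K₀ : Subgroup G) [N.Normal] [K₀.Normal] (hKN : K ≤ N)
    (hfi : K₀.relIndex K ≠ 0) (hN : VS N) (hMN : M ⊓ N = ⊥) (hP : (N ⊔ M).FiniteIndex) :
    ∃ M₁ : Subgroup G, M₁.Normal ∧ M₁.FiniteIndex ∧ M₁ ⊓ K ≤ K₀ := by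
  classical
  have hΓ : VS (N ⧸ K₀.subgroupOf N) :=
    hN.of_surjective (QuotientGroup.mk' _) (QuotientGroup.mk'_surjective _)
  have hfin : Finite (K ⧸ K₀.subgroupOf K) := Nat.finite_of_card_ne_zero hfi
  let f : (K ⧸ K₀.subgroupOf K) → (N ⧸ K₀.subgroupOf N) := fun a =>
    QuotientGroup.mk ⟨(a.out : K), hKN a.out.2⟩
  have hsub : ∀ k : N, (k : G) ∈ K → (QuotientGroup.mk k : N ⧸ K₀.subgroupOf N) ∈ Set.range f := by
    intro k hk
    refine ⟨QuotientGroup.mk ⟨k, hk⟩, ?_⟩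
    apply QuotientGroup.eq.2
    rw [Subgroup.mem_subgroupOf]
    have h1 : (QuotientGroup.mk (⟨k, hk⟩ : K) : K ⧸ K₀.subgroupOf K).out⁻¹ * ⟨k, hk⟩ ∈
        K₀.subgroupOf K := QuotientGroup.eq.1 (Quotient.out_eq' _)
    rw [Subgroup.mem_subgroupOf] at h1
    exact h1
  obtain ⟨T, hT, hTs⟩ := hΓ.avoid_finite (Set.range f \ {1}) ((Set.finite_range f).subset
    Set.sdiff_subset) (fun h => h.2 rfl)
  have hT' : (T.comap (QuotientGroup.mk' (K₀.subgroupOf N))).FiniteIndex := finiteIndex_comap _ T hT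
  set T' := T.comap (QuotientGroup.mk' (K₀.subgroupOf N)) with hT'd
  have hfg : Group.FG N := hN.1.fg
  have hci := core_fi N T'.index
  have hcc := core_char N T'.index
  have hcl := core_le N hT'.index_ne_zero T' rfl
  set Kc := core N T'.index with hKc
  have hN₀ : (Kc.map N.subtype).Normal := inferInstance
  have hrel : (Kc.map N.subtype).relIndex N ≠ 0 := by
    rw [Subgroup.relIndex, Subgroup.subgroupOf,
      Subgroup.comap_map_eq_self_of_injective N.subtype_injective]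
    exact hci.index_ne_zero
  have hle : Kc.map N.subtype ≤ N := by
    rintro _ ⟨y, _, rfl⟩
    exact y.2
  have hL : (Kc.map N.subtype ⊔ M).FiniteIndex := by
    refine ⟨?_⟩
    rw [← Subgroup.relIndex_mul_index (sup_le_sup_right hle M)]
    exact Nat.mul_ne_zero (relIndex_sup_ne _ N M hrel) hP.index_ne_zero
  refine ⟨(Kc.map N.subtype ⊔ M).normalCore, inferInstance, inferInstance, ?_⟩
  rintro x ⟨hx1, hx2⟩
  have hx3 := (Kc.map N.subtype ⊔ M).normalCore_le hx1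
  obtain ⟨n, hn, m, hm, rfl⟩ := Subgroup.mem_sup_of_normal_left.1 hx3
  have hmN : m ∈ N := by
    have h1 := N.mul_mem (N.inv_mem (hle hn)) (hKN hx2)
    rwa [inv_mul_cancel_left] at h1
  have hm1 : m ∈ M ⊓ N := ⟨hm, hmN⟩
  rw [hMN, Subgroup.mem_bot] at hm1
  subst hm1
  rw [mul_one] at hx2 ⊢
  obtain ⟨y, hy, rfl⟩ := hn
  have hyT : (QuotientGroup.mk y : N ⧸ K₀.subgroupOf N) ∈ T := hcl hy
  by_contra hne
  refine hTs _ ⟨hsub y hx2, fun h1 => hne ?_⟩ hyT
  exact Subgroup.mem_subgroupOf.1 ((QuotientGroup.eq_one_iff y).1 h1)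

end

end Pool.Agent.H92.Bs
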