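import Pool.Agent.H92.Bs.Push
import Pool.Agent.H26R2.Bass.Main

set_option autoImplicit false

/-!
A criterion for the vanishing of the rank over an algebraically closed field: maps to a finite group
and to a group that satisfies the conjecture.
-/

namespace Pool.Agent.H92.Bs

open MonoidAlgebra
open Pool.Agent.H23R2.Cyc (ell ell_single ell_mul_comm ell_eq_sum tf tf_apply tf_mul_comm)
open Pool.Agent.H26R2.Bass

universe u v w x

lemma orderOf_isConj {F : Type x} [Group F] {a b : F} (h : IsConj a b) : orderOf a = orderOf b := by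
  obtain ⟨c, rfl⟩ := isConj_iff.1 h
  exact (MulEquiv.orderOf_eq (MulAut.conj c) a).symm

lemma ord_coprime {F : Type x} [Group F] [Finite F] {p j : ℕ} (hp : p.Prime) (hj : 1 ≤ j) {x : F}
    (h : IsConj x (x ^ p ^ j)) : ¬ p ∣ orderOf x := by
  intro hd
  have h1 := orderOf_isConj h
  rw [orderOf_pow] at h1
  have h2 : p ∣ (orderOf x).gcd (p ^ j) := Nat.dvd_gcd hd (dvd_pow_self p (by omega))
  have h3 : 2 ≤ (orderOf x).gcd (p ^ j) := by
    have h4 : 0 < (orderOf x).gcd (p ^ j) := Nat.gcd_pos_of_pos_left _ (orderOf_pos x)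
    exact hp.two_le.trans (Nat.le_of_dvd h4 h2)
  have h5 := Nat.div_lt_self (orderOf_pos x) h3
  omega

/-- a Sylow subgroup for the characteristic of the field -/
lemma exists_P (k : Type u) [Field k] {F : Type x} [Group F] [Finite F] (I : Subgroup F) :
    ∃ P : Subgroup F, P ≤ I ∧ ((P.relIndex I : ℕ) : k) ≠ 0 ∧
      ∀ u ∈ P, ∀ N : ℕ, (N : k) ≠ 0 → u ^ N = 1 → u = 1 := by
  obtain ⟨p, hp⟩ := CharP.exists k
  rcases CharP.char_is_prime_or_zero k p with hpp | rfl
  · have := Fact.mk hpp
    obtain ⟨S⟩ : Nonempty (Sylow p I) := inferInstance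
    refine ⟨(S : Subgroup I).map I.subtype, ?_, ?_, ?_⟩
    · rintro _ ⟨y, _, rfl⟩
      exact y.2
    · have h1 : ((S : Subgroup I).map I.subtype).relIndex I = (S : Subgroup I).index := by
        rw [Subgroup.relIndex, Subgroup.subgroupOf,
          Subgroup.comap_map_eq_self_of_injective I.subtype_injective]
      rw [h1]
      intro h2
      exact Sylow.not_dvd_index S ((CharP.cast_eq_zero_iff k p _).1 h2)
    · rintro _ ⟨y, hy, rfl⟩ N hN h1
      have h2 : ¬ p ∣ N := fun h => hN ((CharP.cast_eq_zero_iff k p _).2 h)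
      obtain ⟨a, ha⟩ := S.isPGroup' ⟨y, hy⟩
      have ha' : y ^ p ^ a = 1 := congrArg Subtype.val ha
      have h3 : y ^ N = 1 := Subtype.ext h1
      have h4 : y ^ (Nat.gcd (p ^ a) N) = 1 := by
        rw [← orderOf_dvd_iff_pow_eq_one] at *
        exact Nat.dvd_gcd ha' h3
      have h5 : Nat.gcd (p ^ a) N = 1 :=
        Nat.Coprime.pow_left a ((Nat.Prime.coprime_iff_not_dvd hpp).2 h2)
      rw [h5, pow_one] at h4
      rw [h4]
      rfl
  · have : CharZero k := CharP.charP_to_charZero k
    refine ⟨⊥, bot_le, ?_, ?_⟩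
    · rw [Subgroup.relIndex_bot_left]
      exact Nat.cast_ne_zero.2 Nat.card_pos.ne'
    · intro u hu _ _ _
      exact hu

theorem good_isConj {k : Type u} [Field k] {H : Type v} [Group H] {n : ℕ}
    (A : Matrix (Fin n) (Fin n) (MonoidAlgebra k H)) {a b : H} (h : IsConj a b) :
    tf (ind k a) A = tf (ind k b) A := by
  have h1 : ind k a = ind k b := by
    funext y
    unfold ind
    by_cases h1 : IsConj y a
    · rw [if_pos h1, if_pos (h1.trans h)]
    · rw [if_neg h1, if_neg (fun h' => h1 (h'.trans h.symm))]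
  rw [h1]

/-- The index of cosets. -/
lemma card_cosets {H : Type v} [Group H] (S C : Subgroup H) :
    Nat.card {x : H ⧸ S // ∃ c ∈ C, (QuotientGroup.mk c : H ⧸ S) = x} = S.relIndex C := by
  rw [Subgroup.relIndex, Subgroup.index]
  apply Nat.card_congr
  symm
  refine Equiv.ofBijective (Quotient.lift (fun c : C => (⟨QuotientGroup.mk (c : H), c, c.2, rfl⟩ :
    {x : H ⧸ S // ∃ c ∈ C, (QuotientGroup.mk c : H ⧸ S) = x})) ?_) ⟨?_, ?_⟩
  · intro a b hab
    apply Subtype.ext
    change (QuotientGroup.mk (a : H) : H ⧸ S) = QuotientGroup.mk (b : H)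
    have h1 := QuotientGroup.leftRel_apply.1 hab
    exact QuotientGroup.eq.2 (Subgroup.mem_subgroupOf.1 h1)
  · intro a b
    induction a using Quotient.inductionOn with
    | h a =>
    induction b using Quotient.inductionOn with
    | h b =>
    intro h
    have h1 : (QuotientGroup.mk (a : H) : H ⧸ S) = QuotientGroup.mk (b : H) :=
      congrArg Subtype.val h
    apply Quotient.sound
    exact QuotientGroup.leftRel_apply.2 (Subgroup.mem_subgroupOf.2 (QuotientGroup.eq.1 h1))
  · rintro ⟨_, c, hc, rfl⟩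
    exact ⟨Quotient.mk _ ⟨c, hc⟩, rfl⟩

theorem glt {k : Type u} [Field k] [IsAlgClosed k] {H : Type v} [Group H] {F : Type x} [Group F]
    [Finite F] {Q : Type w} [Group Q] (f : H →* F) (π : H →* Q)
    (hQ : ∀ S : Subgroup H, S.FiniteIndex → BassFor k (S.map π)) (h₀ : H)
    (hinf : orderOf (π h₀) = 0)
    (hcon : ∀ y, ¬ Good k y → f y = f h₀ → π y = π h₀ → IsConj y h₀) {n : ℕ}
    (A : Matrix (Fin n) (Fin n) (MonoidAlgebra k H)) (hA : A * A = A) : tf (ind k h₀) A = 0 := by
  classical
  by_contra hne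
  have ng : ∀ y, tf (ind k y) A ≠ 0 → ¬ Good k y := fun y hy hg => hy (tf_zero_of_good A hA y hg)
  have hord : ∀ y, ¬ Good k y → ((orderOf (f y) : ℕ) : k) ≠ 0 := by
    intro y hy
    obtain ⟨p, hp⟩ := CharP.exists k
    rcases CharP.char_is_prime_or_zero k p with hpp | rfl
    · intro h1
      have h2 := (CharP.cast_eq_zero_iff k p _).1 h1
      have h3 : ∃ j : ℕ, 1 ≤ j ∧ IsConj y (y ^ p ^ j) := by
        by_contra hcon'
        push Not at hcon'
        apply hy
        refine Or.inr (Or.inl ⟨p, hpp, ?_, hcon'⟩)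
        rw [CharP.cast_eq_zero]
        exact not_isUnit_zero
      obtain ⟨j, hj, hc⟩ := h3
      have h4 := MonoidHom.map_isConj f hc
      rw [map_pow] at h4
      exact ord_coprime hpp hj h4 h2
    · have : CharZero k := CharP.charP_to_charZero k
      exact Nat.cast_ne_zero.2 (orderOf_pos _).ne'
  set D := f h₀ with hD
  have hDo : ((orderOf D : ℕ) : k) ≠ 0 := hord h₀ (ng h₀ hne)
  set C : Subgroup H := (Subgroup.centralizer {D}).comap f ⊓
    (Subgroup.centralizer {π h₀}).comap π with hC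
  have hCm : ∀ g, g ∈ C ↔ f g * D = D * f g ∧ π g * π h₀ = π h₀ * π g := by
    intro g
    rw [hC, Subgroup.mem_inf, Subgroup.mem_comap, Subgroup.mem_comap,
      Subgroup.mem_centralizer_singleton_iff, Subgroup.mem_centralizer_singleton_iff]
  set I := C.map f with hI
  have hDI : D ∈ I := ⟨h₀, (hCm h₀).2 ⟨rfl, rfl⟩, rfl⟩
  have hDc : ∀ x ∈ I, x * D = D * x := by
    rintro _ ⟨g, hg, rfl⟩
    exact ((hCm g).1 hg).1
  obtain ⟨P, hPI, hPi, hPu⟩ := exists_P k I
  set E := Subgroup.zpowers D ⊔ P with hE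
  have hPE : P ≤ E := le_sup_right
  have hDE : D ∈ E := Subgroup.mem_sup_left (Subgroup.mem_zpowers D)
  have hEI : E ≤ I := sup_le (Subgroup.zpowers_le.2 hDI) hPI
  have hEi : ((E.relIndex I : ℕ) : k) ≠ 0 := by
    intro h1
    apply hPi
    rw [← Subgroup.relIndex_mul_relIndex P E I hPE hEI, Nat.cast_mul, h1, mul_zero]
  have hPn : (P.subgroupOf E).Normal := by
    rw [Subgroup.normal_subgroupOf_iff_le_normalizer hPE]
    refine sup_le (Subgroup.zpowers_le.2 ?_) Subgroup.le_normalizer
    rw [Subgroup.mem_normalizer_iff]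
    intro u
    have h1 : ∀ u ∈ P, D * u * D⁻¹ = u := by
      intro u hu
      rw [← hDc u (hPI hu), mul_inv_cancel_right]
    constructor
    · intro hu
      rw [h1 u hu]
      exact hu
    · intro hu
      have h2 := h1 _ hu
      have h3 : D * u * D⁻¹ = u := by
        have h4 : D * (D * u * D⁻¹) * D⁻¹ = D * u * D⁻¹ := h2
        have h5 := mul_right_cancel h4
        exact mul_left_cancel h5
      rw [h3] at hu
      exact hu
  let D' : E := ⟨D, hDE⟩
  have hcyc : ∀ x : E ⧸ P.subgroupOf E, x ∈ Subgroup.zpowers (QuotientGroup.mk D' : E ⧸ P.subgroupOf E) := by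
    intro x
    obtain ⟨x, rfl⟩ := QuotientGroup.mk_surjective x
    have h1 : E ≤ (((Subgroup.zpowers (QuotientGroup.mk D' : E ⧸ P.subgroupOf E)).comap
        (QuotientGroup.mk' (P.subgroupOf E))).map E.subtype) := by
      refine sup_le (Subgroup.zpowers_le.2 ?_) ?_
      · exact ⟨D', Subgroup.mem_zpowers _, rfl⟩
      · intro u hu
        refine ⟨⟨u, hPE hu⟩, ?_, rfl⟩
        have h2 : (QuotientGroup.mk' (P.subgroupOf E)) ⟨u, hPE hu⟩ = 1 :=
          (QuotientGroup.eq_one_iff _).2 (Subgroup.mem_subgroupOf.2 hu)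
        rw [SetLike.mem_coe, Subgroup.mem_comap, h2]
        exact Subgroup.one_mem _
    obtain ⟨y, hy, hyx⟩ := h1 x.2
    have h2 : y = x := Subtype.ext hyx
    rw [h2] at hy
    exact hy
  have hcy : IsCyclic (E ⧸ P.subgroupOf E) := ⟨⟨_, hcyc⟩⟩
  let _ : CommGroup (E ⧸ P.subgroupOf E) := IsCyclic.commGroup
  have hCard : ((Nat.card (E ⧸ P.subgroupOf E) : ℕ) : k) ≠ 0 := by
    rw [← orderOf_eq_card_of_forall_mem_zpowers hcyc]
    have h1 : orderOf (QuotientGroup.mk D' : E ⧸ P.subgroupOf E) ∣ orderOf D := by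
      have h2 := orderOf_map_dvd (QuotientGroup.mk' (P.subgroupOf E)) D'
      have h3 : orderOf D' = orderOf D := Subgroup.orderOf_mk D hDE
      rw [h3] at h2
      exact h2
    obtain ⟨d, hd⟩ := h1
    intro h2
    apply hDo
    rw [hd, Nat.cast_mul, h2, zero_mul]
  -- the subgroup
  set S := E.comap f with hS
  have hSf : S.FiniteIndex := by
    have h1 : f.ker ≤ S := by
      intro y hy
      rw [hS, Subgroup.mem_comap, MonoidHom.mem_ker.1 hy]
      exact E.one_mem
    exact Subgroup.finiteIndex_of_le h1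
  have hfin : Finite (H ⧸ S) := Subgroup.finite_quotient_of_finiteIndex
  let _ : Fintype (H ⧸ S) := Fintype.ofFinite _
  let f₁ : S →* E ⧸ P.subgroupOf E := (QuotientGroup.mk' (P.subgroupOf E)).comp (f.subgroupComap E)
  let π₁ : S →* S.map π := π.subgroupMap S
  have h₀S : h₀ ∈ S := hDE
  let h₁ : S := ⟨h₀, h₀S⟩
  let q : S.map π := π₁ h₁
  have hq : orderOf q = 0 := by
    have h1 : orderOf q = orderOf (π h₀) := (Subgroup.orderOf_coe q).symm
    rw [h1, hinf]
  have hF : ∀ (n : ℕ) (B : Matrix (Fin n) (Fin n) (MonoidAlgebra k (S.map π))), B * B = B →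
      tf (ind k q) B = 0 := by
    intro n B hB
    have h1 := hQ S hSf n B hB q (by rw [hq, Nat.cast_zero]; exact not_isUnit_zero)
    change tau B q = 0 at h1
    rwa [tau_eq] at h1
  let F₁ : S → k := fun s => if f₁ s = f₁ h₁ then ind k q (π₁ s) else 0
  have hF₁ : ∀ (n : ℕ) (B : Matrix (Fin n) (Fin n) (MonoidAlgebra k S)), B * B = B →
      tf F₁ B = 0 := by
    intro n B hB
    have h3 := tf_sep hCard f₁ π₁ (ind k q) hF (f₁ h₁) B hB
    convert h3
  have h2 := tf_indf S F₁ hF₁ A hA
  have hF₁c : ∀ x y, F₁ (x * y) = F₁ (y * x) := by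
    intro x y
    change (if f₁ (x * y) = f₁ h₁ then ind k q (π₁ (x * y)) else 0) =
      if f₁ (y * x) = f₁ h₁ then ind k q (π₁ (y * x)) else 0
    have e1 : f₁ (x * y) = f₁ (y * x) := by rw [map_mul, map_mul, mul_comm]
    have e2 : ind k q (π₁ (x * y)) = ind k q (π₁ (y * x)) := by
      rw [map_mul, map_mul, ind_comm]
    rw [e1, e2]
  -- the main computation
  have key : ∀ g : H, tf (ind k g) A ≠ 0 → ∀ y : S, IsConj (y : H) g → f₁ y = f₁ h₁ →
      IsConj (π₁ y) q → ∃ v ∈ S, f (v * y * v⁻¹) = D ∧ π (v * y * v⁻¹) = π h₀ := by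
    intro g hg y hy hf hπ
    obtain ⟨⟨_, v, hv, rfl⟩, hvc⟩ := isConj_iff.1 hπ
    have hvc' : π v * π y * (π v)⁻¹ = π h₀ := congrArg Subtype.val hvc
    refine ⟨v, hv, ?_, ?_⟩
    · have hng : ¬ Good k (v * (y : H) * v⁻¹) := by
        apply ng
        rw [← good_isConj A (isConj_iff.2 ⟨v, rfl⟩ : IsConj (y : H) (v * y * v⁻¹)),
          good_isConj A hy]
        exact hg
      have h3 := hord _ hng
      have h4 : f₁ (⟨v, hv⟩ * y * ⟨v, hv⟩⁻¹) = f₁ h₁ := by
        rw [map_mul, map_mul, map_inv, mul_comm (f₁ ⟨v, hv⟩), mul_inv_cancel_right, hf]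
      have h5 : D⁻¹ * f (v * (y : H) * v⁻¹) ∈ P := by
        have h6 := QuotientGroup.eq.1 h4.symm
        exact Subgroup.mem_subgroupOf.1 h6
      set z := f (v * (y : H) * v⁻¹) with hz
      have h7 : (D⁻¹ * z) ^ (orderOf z * orderOf D) = 1 := by
        have hc : Commute D⁻¹ z := by
          have h8 := hDc _ (hPI h5)
          have h9 : D⁻¹ * z * D = z := by rw [h8, mul_inv_cancel_left]
          have h10 : z * D = D * z := by
            have h11 : D⁻¹ * (z * D) = z := by rw [← mul_assoc]; exact h9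
            have h12 : D * (D⁻¹ * (z * D)) = D * z := congrArg (fun x => D * x) h11
            rwa [mul_inv_cancel_left] at h12
          exact (show Commute D z from h10.symm).inv_left
        rw [hc.mul_pow, pow_mul z, pow_orderOf_eq_one, one_pow, mul_one, mul_comm, pow_mul,
          inv_pow, pow_orderOf_eq_one, inv_one, one_pow]
      have h8 := hPu _ h5 (orderOf z * orderOf D) (by
        rw [Nat.cast_mul]
        exact mul_ne_zero h3 hDo) h7
      exact (inv_mul_eq_one.1 h8).symm
    · rw [map_mul, map_mul, map_inv]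
      exact hvc'
  set m := indf S F₁ h₀ with hm
  -- the multiplicity
  have hm0 : m ≠ 0 := by
    have h3 : m = ((S.relIndex C : ℕ) : k) := by
      rw [hm, indf_eq, ← card_cosets, Nat.card_eq_fintype_card, Fintype.card_subtype,
        ← Finset.sum_boole]
      apply Finset.sum_congr rfl
      intro x _
      by_cases hx : ∃ c ∈ C, (QuotientGroup.mk c : H ⧸ S) = x
      · rw [if_pos hx]
        obtain ⟨c, hc, hcx⟩ := hx
        rw [← x.out_eq'] at hcx
        have h4 : c⁻¹ * x.out ∈ S := QuotientGroup.eq.1 hcx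
        obtain ⟨w, hw⟩ : ∃ w : S, (w : H) = c⁻¹ * x.out := ⟨⟨_, h4⟩, rfl⟩
        have hxo : x.out = c * w := by rw [hw, mul_inv_cancel_left]
        have hcf := (hCm c).1 hc
        have hfz : f (c⁻¹ * h₀ * c) = D := by
          rw [map_mul, map_mul, map_inv, mul_assoc, ← hD, ← hcf.1, inv_mul_cancel_left]
        have hπz : π (c⁻¹ * h₀ * c) = π h₀ := by
          rw [map_mul, map_mul, map_inv, mul_assoc, ← hcf.2, inv_mul_cancel_left]
        have hzS : c⁻¹ * h₀ * c ∈ S := by
          rw [hS, Subgroup.mem_comap, hfz]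
          exact hDE
        have h5 : x.out⁻¹ * h₀ * x.out = (w : H)⁻¹ * (c⁻¹ * h₀ * c) * w := by
          rw [hxo]; group
        have h6 : x.out⁻¹ * h₀ * x.out ∈ S := by
          rw [h5]
          exact S.mul_mem (S.mul_mem (S.inv_mem w.2) hzS) w.2
        rw [dif_pos h6]
        have h7 : (⟨_, h6⟩ : S) = w⁻¹ * ⟨_, hzS⟩ * w := Subtype.ext h5
        have h8 : f₁ (w⁻¹ * ⟨_, hzS⟩ * w) = f₁ h₁ := by
          rw [map_mul, map_mul, map_inv, mul_comm (f₁ w)⁻¹, inv_mul_cancel_right]
          change (QuotientGroup.mk _ : E ⧸ P.subgroupOf E) = QuotientGroup.mk _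
          congr 1
          exact Subtype.ext hfz
        have h9 : IsConj (π₁ (w⁻¹ * ⟨_, hzS⟩ * w)) q := by
          refine isConj_iff.2 ⟨π₁ w, ?_⟩
          rw [map_mul, map_mul, map_inv, mul_assoc, mul_assoc, mul_assoc, mul_inv_cancel, mul_one,
            mul_inv_cancel_left]
          exact Subtype.ext hπz
        rw [h7]
        change (if f₁ (w⁻¹ * ⟨_, hzS⟩ * w) = f₁ h₁ then
          ind k q (π₁ (w⁻¹ * ⟨_, hzS⟩ * w)) else 0) = 1
        rw [if_pos h8]
        unfold ind
        rw [if_pos h9]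
      · rw [if_neg hx]
        by_cases h6 : x.out⁻¹ * h₀ * x.out ∈ S
        · rw [dif_pos h6]
          change (if f₁ ⟨_, h6⟩ = f₁ h₁ then ind k q (π₁ ⟨_, h6⟩) else 0) = 0
          by_cases h8 : f₁ ⟨_, h6⟩ = f₁ h₁
          · rw [if_pos h8]
            unfold ind
            rw [if_neg]
            intro h9
            apply hx
            obtain ⟨v, hv, hv1, hv2⟩ := key h₀ hne ⟨_, h6⟩
              (isConj_iff.2 ⟨x.out, by group⟩) h8 h9
            refine ⟨x.out * v⁻¹, ?_, ?_⟩
            · have e1 : v * (x.out⁻¹ * h₀ * x.out) * v⁻¹ =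
                  (x.out * v⁻¹)⁻¹ * h₀ * (x.out * v⁻¹) := by group
              have hv1' : f ((x.out * v⁻¹)⁻¹ * h₀ * (x.out * v⁻¹)) = D := by
                rw [← e1]; exact hv1
              have hv2' : π ((x.out * v⁻¹)⁻¹ * h₀ * (x.out * v⁻¹)) = π h₀ := by
                rw [← e1]; exact hv2
              rw [hCm]
              constructor
              · rw [map_mul, map_mul, map_inv, mul_assoc, inv_mul_eq_iff_eq_mul] at hv1'
                exact hv1'.symm
              · rw [map_mul, map_mul, map_inv, mul_assoc, inv_mul_eq_iff_eq_mul] at hv2'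
                exact hv2'.symm
            · have e2 : (x.out * v⁻¹)⁻¹ * x.out ∈ S := by
                have e3 : (x.out * v⁻¹)⁻¹ * x.out = v := by group
                rw [e3]
                exact hv
              exact (QuotientGroup.eq.2 e2).trans x.out_eq'
          · rw [if_neg h8]
        · rw [dif_neg h6]
    rw [h3, hS, Subgroup.relIndex_comap]
    exact hEi
  have h4 : tf (fun g => indf S F₁ g - m * ind k h₀ g) A = 0 := by
    rw [tf_apply, ← map_sum]
    apply ell_class
    · intro a b hab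
      rw [indf_class S F₁ hF₁c a b hab]
      have e2 : ind k h₀ a = ind k h₀ b := by
        unfold ind
        by_cases h : IsConj a h₀
        · rw [if_pos h, if_pos (hab.symm.trans h)]
        · rw [if_neg h, if_neg (fun h' => h (hab.trans h'))]
      rw [e2]
    · intro g hg
      by_contra hg1
      have hg2 : tf (ind k g) A ≠ 0 := by
        rw [tf_apply, ← map_sum]
        exact hg1
      apply hg
      by_cases hgc : IsConj g h₀
      · rw [indf_class S F₁ hF₁c g h₀ hgc]
        unfold ind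
        rw [if_pos hgc, mul_one, ← hm, sub_self]
      · have h5 : ind k h₀ g = 0 := by
          unfold ind
          rw [if_neg hgc]
        rw [h5, mul_zero, sub_zero, indf_eq]
        apply Finset.sum_eq_zero
        intro x _
        by_cases h6 : x.out⁻¹ * g * x.out ∈ S
        · rw [dif_pos h6]
          change (if f₁ ⟨_, h6⟩ = f₁ h₁ then ind k q (π₁ ⟨_, h6⟩) else 0) = 0
          by_cases h8 : f₁ ⟨_, h6⟩ = f₁ h₁
          · rw [if_pos h8]
            unfold ind
            rw [if_neg]
            intro h9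
            have hyg : IsConj (x.out⁻¹ * g * x.out) g := isConj_iff.2 ⟨x.out, by group⟩
            obtain ⟨v, hv, hv1, hv2⟩ := key g hg2 ⟨_, h6⟩ hyg h8 h9
            have h10 : IsConj (x.out⁻¹ * g * x.out) (v * (x.out⁻¹ * g * x.out) * v⁻¹) :=
              isConj_iff.2 ⟨v, rfl⟩
            have h11 : ¬ Good k (v * (x.out⁻¹ * g * x.out) * v⁻¹) := by
              apply ng
              rw [← good_isConj A h10, good_isConj A hyg]
              exact hg2
            have h12 := hcon _ h11 hv1 hv2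
            exact hgc (hyg.symm.trans (h10.trans h12))
          · rw [if_neg h8]
        · rw [dif_neg h6]
  rw [tf_sub', tf_mul', h2, zero_sub, neg_eq_zero] at h4
  rcases mul_eq_zero.1 h4 with h5 | h5
  · exact hm0 h5
  · exact hne h5

end Pool.Agent.H92.Bs
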