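import Mathlib
import Pool.Agent.H26R2.Bass.Padic

set_option autoImplicit false

/-!
Restriction of idempotent matrices to subgroups of finite index, and induced class functions.
-/

namespace Pool.Agent.H92.Bs

open MonoidAlgebra
open Pool.Agent.H23R2.Cyc (ell ell_single ell_mul_comm ell_eq_sum tf tf_apply tf_mul_comm)

universe u v

section

variable {R : Type u} [CommRing R] {H : Type v} [Group H] (S : Subgroup H)

/-- the entry of the monomial matrix -/
noncomputable def ent (R : Type u) [CommRing R] {H : Type v} [Group H] (S : Subgroup H) (g : H) :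
    MonoidAlgebra R S := by
  classical
  exact if h : g ∈ S then single ⟨g, h⟩ 1 else 0

lemma ent_of_mem {g : H} (h : g ∈ S) : ent R S g = single ⟨g, h⟩ 1 := by
  unfold ent
  rw [dif_pos h]

lemma ent_of_not_mem {g : H} (h : g ∉ S) : ent R S g = 0 := by
  unfold ent
  rw [dif_neg h]

variable [Fintype (H ⧸ S)] [DecidableEq (H ⧸ S)]

/-- the monomial representation -/
noncomputable def rep (R : Type u) [CommRing R] {H : Type v} [Group H] (S : Subgroup H)
    [Fintype (H ⧸ S)] [DecidableEq (H ⧸ S)] :
    H →* Matrix (H ⧸ S) (H ⧸ S) (MonoidAlgebra R S) where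
  toFun g := Matrix.of fun x y => ent R S (x.out⁻¹ * g * y.out)
  map_one' := by
    ext1 x y
    rw [Matrix.of_apply, Matrix.one_apply, mul_one]
    by_cases h : x = y
    · subst h
      rw [if_pos rfl, inv_mul_cancel, ent_of_mem S S.one_mem]
      rfl
    · rw [if_neg h, ent_of_not_mem]
      intro h1
      apply h
      rw [← x.out_eq', ← y.out_eq']
      exact QuotientGroup.eq.2 h1
  map_mul' g g' := by
    ext1 x z
    rw [Matrix.of_apply, Matrix.mul_apply]
    simp only [Matrix.of_apply]
    rw [Finset.sum_eq_single (QuotientGroup.mk (g' * z.out) : H ⧸ S)]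
    · have h1 : (QuotientGroup.mk (g' * z.out) : H ⧸ S).out⁻¹ * g' * z.out ∈ S := by
        rw [mul_assoc]
        exact QuotientGroup.eq.1 (Quotient.out_eq' _)
      rw [ent_of_mem S h1]
      by_cases h2 : x.out⁻¹ * g * (QuotientGroup.mk (g' * z.out) : H ⧸ S).out ∈ S
      · have h3 : x.out⁻¹ * (g * g') * z.out ∈ S := by
          have h4 := S.mul_mem h2 h1
          have e : x.out⁻¹ * g * (QuotientGroup.mk (g' * z.out) : H ⧸ S).out *
            ((QuotientGroup.mk (g' * z.out) : H ⧸ S).out⁻¹ * g' * z.out) =
            x.out⁻¹ * (g * g') * z.out := by group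
          rwa [e] at h4
        rw [ent_of_mem S h2, ent_of_mem S h3, single_mul_single, one_mul]
        congr 1
        apply Subtype.ext
        change _ = x.out⁻¹ * g * (QuotientGroup.mk (g' * z.out) : H ⧸ S).out *
            ((QuotientGroup.mk (g' * z.out) : H ⧸ S).out⁻¹ * g' * z.out)
        group
      · have h3 : x.out⁻¹ * (g * g') * z.out ∉ S := by
          intro h4
          apply h2
          have h5 := S.mul_mem h4 (S.inv_mem h1)
          have e : x.out⁻¹ * (g * g') * z.out *
            ((QuotientGroup.mk (g' * z.out) : H ⧸ S).out⁻¹ * g' * z.out)⁻¹ =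
            x.out⁻¹ * g * (QuotientGroup.mk (g' * z.out) : H ⧸ S).out := by group
          rwa [e] at h5
        rw [ent_of_not_mem S h2, ent_of_not_mem S h3, zero_mul]
    · intro y _ hy
      have h1 : y.out⁻¹ * g' * z.out ∉ S := by
        intro h2
        apply hy
        rw [mul_assoc] at h2
        rw [← y.out_eq']
        exact QuotientGroup.eq.2 h2
      rw [ent_of_not_mem S h1, mul_zero]
    · intro h
      exact absurd (Finset.mem_univ _) h

lemma rep_apply (g : H) (x y : H ⧸ S) : rep R S g x y = ent R S (x.out⁻¹ * g * y.out) := rfl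

/-- the restriction homomorphism -/
noncomputable def res (R : Type u) [CommRing R] {H : Type v} [Group H] (S : Subgroup H)
    [Fintype (H ⧸ S)] [DecidableEq (H ⧸ S)] :
    MonoidAlgebra R H →ₐ[R] Matrix (H ⧸ S) (H ⧸ S) (MonoidAlgebra R S) :=
  MonoidAlgebra.lift R _ H (rep R S)

lemma res_single (g : H) (r : R) : res R S (single g r) = r • rep R S g := by
  unfold res
  rw [MonoidAlgebra.lift_single]

/-- the induced function -/
noncomputable def indf (F : S → R) (g : H) : R := tf F (rep R S g)

lemma indf_comm (F : S → R) (hF : ∀ x y, F (x * y) = F (y * x)) (g g' : H) :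
    indf S F (g * g') = indf S F (g' * g) := by
  unfold indf
  have h1 : rep R S (g * g') = rep R S g * rep R S g' := map_mul _ _ _
  have h2 : rep R S (g' * g) = rep R S g' * rep R S g := map_mul _ _ _
  rw [h1, h2, tf_mul_comm F hF]

lemma indf_class (F : S → R) (hF : ∀ x y, F (x * y) = F (y * x)) (g g' : H)
    (h : IsConj g g') : indf S F g = indf S F g' := by
  obtain ⟨c, rfl⟩ := isConj_iff.1 h
  rw [mul_assoc, indf_comm S F hF, inv_mul_cancel_right]

open Classical in
lemma indf_eq (F : S → R) (g : H) : indf S F g =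
    ∑ x : H ⧸ S, if h : x.out⁻¹ * g * x.out ∈ S then F ⟨_, h⟩ else 0 := by
  unfold indf
  rw [tf_apply]
  apply Finset.sum_congr rfl
  intro x _
  rw [rep_apply]
  by_cases h : x.out⁻¹ * g * x.out ∈ S
  · rw [dif_pos h, ent_of_mem S h, ell_single, one_mul]
  · rw [dif_neg h, ent_of_not_mem S h, map_zero]

omit [Fintype (H ⧸ S)] [DecidableEq (H ⧸ S)] in
lemma ell_smul (F : S → R) (r : R) (x : MonoidAlgebra R S) : ell F (r • x) = r * ell F x := by
  induction x using MonoidAlgebra.induction_linear with
  | zero => simp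
  | add x y hx hy => rw [smul_add, map_add, hx, hy, map_add, mul_add]
  | single g s => rw [smul_single, smul_eq_mul, ell_single, ell_single, mul_assoc]

lemma sum_res (F : S → R) (a : MonoidAlgebra R H) :
    ∑ x : H ⧸ S, ell F (res R S a x x) = ell (indf S F) a := by
  induction a using MonoidAlgebra.induction_linear with
  | zero => simp
  | add a b ha hb =>
    rw [map_add, map_add, ← ha, ← hb, ← Finset.sum_add_distrib]
    apply Finset.sum_congr rfl
    intro x _
    rw [Matrix.add_apply, map_add]
  | single g r =>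
    rw [ell_single, res_single]
    unfold indf
    rw [tf_apply, Finset.mul_sum]
    apply Finset.sum_congr rfl
    intro x _
    rw [Matrix.smul_apply, ell_smul]

end

/-- reindexing -/
lemma tf_zero_reindex {R : Type u} [CommRing R] {S : Type v} [Group S] (F : S → R)
    (h : ∀ (n : ℕ) (B : Matrix (Fin n) (Fin n) (MonoidAlgebra R S)), B * B = B → tf F B = 0)
    {d : Type*} [Fintype d] [DecidableEq d] (B : Matrix d d (MonoidAlgebra R S)) (hB : B * B = B) :
    tf F B = 0 := by
  let e := Fintype.equivFin d
  have h1 := h (Fintype.card d) (Matrix.reindex e e B) (by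
    rw [Matrix.reindex_apply, Matrix.submatrix_mul_equiv, hB])
  rw [tf_apply] at h1 ⊢
  rw [← h1]
  apply Fintype.sum_equiv e
  intro i
  rw [Matrix.reindex_apply, Matrix.submatrix_apply, Equiv.symm_apply_apply]

/-- induced functions of functions killing idempotents -/
theorem tf_indf {R : Type u} [CommRing R] {H : Type v} [Group H] (S : Subgroup H)
    [Fintype (H ⧸ S)] [DecidableEq (H ⧸ S)] (F : S → R)
    (h : ∀ (n : ℕ) (B : Matrix (Fin n) (Fin n) (MonoidAlgebra R S)), B * B = B → tf F B = 0)
    {n : ℕ} (A : Matrix (Fin n) (Fin n) (MonoidAlgebra R H)) (hA : A * A = A) :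
    tf (indf S F) A = 0 := by
  let φ : MonoidAlgebra R H →+* Matrix (H ⧸ S) (H ⧸ S) (MonoidAlgebra R S) := (res R S).toRingHom
  let B := Matrix.compRingEquiv (Fin n) (H ⧸ S) (MonoidAlgebra R S) (A.map φ)
  have hB : B * B = B := by
    change Matrix.compRingEquiv _ _ _ _ * Matrix.compRingEquiv _ _ _ _ =
      Matrix.compRingEquiv _ _ _ _
    rw [← map_mul, ← Matrix.map_mul, hA]
  have h1 := tf_zero_reindex F h B hB
  rw [tf_apply, Fintype.sum_prod_type] at h1
  rw [tf_apply, ← h1]
  apply Finset.sum_congr rfl
  intro i _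
  rw [← sum_res S F (A i i)]
  rfl

end Pool.Agent.H92.Bs
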