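import Pool.Agent.H92.Bs.Step

set_option autoImplicit false

/-!
Lifting the conjecture through virtually split extensions with polycyclic-by-finite kernel.
-/

namespace Pool.Agent.H92.Bs

open MonoidAlgebra
open Pool.Agent.Helper611.PcGrp (MaxC)
open Pool.Agent.H23R2.Cyc (ell tf tf_apply)
open Pool.Agent.H26R2.Bass
open scoped commutatorElement

universe u v w

/-- subgroups with a series with finite or finitely generated abelian factors -/
inductive PL : ∀ (G : Type v) [Group G], Subgroup G → Prop
  | bot (G : Type v) [Group G] : PL G ⊥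
  | step (G : Type v) [Group G] (K N : Subgroup G) [K.Normal] (hKN : K ≤ N)
      (hK : Finite K ∨ ((∀ a ∈ K, ∀ b ∈ K, a * b = b * a) ∧ K.FG))
      (h : PL (G ⧸ K) (N.map (QuotientGroup.mk' K))) : PL G N

/-- passing to subgroups of finite index -/
theorem fb_of_sub {k : Type u} [Field k] [IsAlgClosed k] {G : Type v} [Group G] {Q : Type w}
    [Group Q] (π : G →* Q)
    (N M : Subgroup G) [N.Normal] (hKN : π.ker ≤ N)
    (hK : Finite π.ker ∨ ((∀ a ∈ π.ker, ∀ b ∈ π.ker, a * b = b * a) ∧ π.ker.FG))
    (hN : VS N) (hMN : M ⊓ N = ⊥) (hP : (N ⊔ M).FiniteIndex) (hAct : Act N)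
    (hr : π.range.FiniteIndex) (hQ : FB k Q) : FB k G := by
  intro H hH
  have hker : (π.comp H.subtype).ker = π.ker.subgroupOf H := rfl
  have hN' : VS (N.subgroupOf H) := by
    let f : N.subgroupOf H →* N :=
      { toFun := fun x => ⟨(x : H), x.2⟩
        map_one' := rfl
        map_mul' := fun _ _ => rfl }
    refine hN.of_injective f ?_
    intro x y hxy
    have h1 : ((f x : N) : G) = ((f y : N) : G) := congrArg Subtype.val hxy
    exact Subtype.ext (Subtype.ext h1)
  refine bass_step (π.comp H.subtype) (N.subgroupOf H) (M.subgroupOf H) ?_ ?_ hN' ?_ ?_ ?_ ?_ hQ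
  · rw [hker]
    intro x hx
    exact hKN hx
  · rw [hker]
    rcases hK with hK | ⟨hab, hfg⟩
    · left
      refine Finite.of_injective (fun x : π.ker.subgroupOf H => (⟨(x : H), x.2⟩ : π.ker)) ?_
      intro x y hxy
      have h1 : ((x : H) : G) = ((y : H) : G) := congrArg (fun z : π.ker => (z : G)) hxy
      exact Subtype.ext (Subtype.ext h1)
    · right
      refine ⟨fun a ha b hb => Subtype.ext (hab a ha b hb), ?_⟩
      rw [← Group.fg_iff_subgroup_fg]
      let f : π.ker.subgroupOf H →* N.subgroupOf H :=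
        { toFun := fun x => ⟨(x : H), hKN x.2⟩
          map_one' := rfl
          map_mul' := fun _ _ => rfl }
      have hf : Function.Injective f := by
        intro x y hxy
        have h1 : ((f x : N.subgroupOf H) : H) = ((f y : N.subgroupOf H) : H) :=
          congrArg Subtype.val hxy
        exact Subtype.ext h1
      exact (hN'.1.of_injective f hf).fg
  · rw [eq_bot_iff]
    rintro x ⟨h1, h2⟩
    have h3 : (x : G) ∈ M ⊓ N := ⟨h1, h2⟩
    rw [hMN, Subgroup.mem_bot] at h3
    exact Subtype.ext h3
  · -- the index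
    have hC : H.normalCore.FiniteIndex := inferInstance
    have h1 : ((N ⊓ H.normalCore) ⊔ (M ⊓ H.normalCore)).FiniteIndex := by
      refine ⟨?_⟩
      have h2 : ((N ⊓ H.normalCore) ⊔ (M ⊓ H.normalCore)) ≤ (N ⊓ H.normalCore) ⊔ M :=
        sup_le_sup_left inf_le_left _
      have h3 : (N ⊓ H.normalCore) ⊔ M ≤ N ⊔ M := sup_le_sup_right inf_le_left _
      rw [← Subgroup.relIndex_mul_index h2, ← Subgroup.relIndex_mul_index h3]
      refine Nat.mul_ne_zero ?_ (Nat.mul_ne_zero ?_ hP.index_ne_zero)
      · apply relIndex_sup_ne'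
        rw [Subgroup.inf_relIndex_left]
        exact (inferInstance : (H.normalCore.subgroupOf M).FiniteIndex).index_ne_zero
      · apply relIndex_sup_ne
        rw [Subgroup.inf_relIndex_left]
        exact (inferInstance : (H.normalCore.subgroupOf N).FiniteIndex).index_ne_zero
    have h4 : ((N ⊓ H.normalCore) ⊔ (M ⊓ H.normalCore)).subgroupOf H ≤
        N.subgroupOf H ⊔ M.subgroupOf H := by
      intro x hx
      rw [Subgroup.mem_subgroupOf] at hx
      obtain ⟨n, hn, m, hm, hnm⟩ := Subgroup.mem_sup_of_normal_left.1 hx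
      have hnH : n ∈ H := H.normalCore_le hn.2
      have hmH : m ∈ H := H.normalCore_le hm.2
      have h5 : x = ⟨n, hnH⟩ * ⟨m, hmH⟩ := Subtype.ext hnm.symm
      rw [h5]
      exact Subgroup.mul_mem_sup (Subgroup.mem_subgroupOf.2 hn.1) (Subgroup.mem_subgroupOf.2 hm.1)
    exact Subgroup.finiteIndex_of_le h4
  · intro p j h hp hj hc
    obtain ⟨r, hr', h1⟩ := hAct p j h hp hj (MonoidHom.map_isConj H.subtype hc)
    exact ⟨r, hr', fun n hn => Subtype.ext (h1 n hn)⟩
  · have h1 : (π.comp H.subtype).range = H.map π := by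
      rw [MonoidHom.range_comp, Subgroup.range_subtype]
    rw [h1]
    refine ⟨?_⟩
    rw [Subgroup.index_map]
    refine Nat.mul_ne_zero ?_ hr.index_ne_zero
    have h2 : (H ⊔ π.ker).FiniteIndex := Subgroup.finiteIndex_of_le (le_sup_left : H ≤ H ⊔ π.ker)
    exact h2.index_ne_zero

/-- the induction -/
theorem fb_of_pl {k : Type u} [Field k] [IsAlgClosed k] {G : Type v} [Group G] {N : Subgroup G}
    (h : PL G N) : ∀ (_ : N.Normal) (T : Type w) [Group T] (ρ : G →* T) (_ : ρ.ker = N)
      (M : Subgroup G), M ⊓ N = ⊥ → (N ⊔ M).FiniteIndex → VS N → ρ.range.FiniteIndex → FB k T →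
      FB k G ∧ Act N := by
  induction h with
  | bot G =>
    intro _ T _ ρ hρ M hMN hP hN hr hT
    have hAct : Act (⊥ : Subgroup G) := by
      intro p j h _ _ _
      refine ⟨1, le_rfl, fun n hn => ?_⟩
      rw [Subgroup.mem_bot.1 hn, mul_one, one_mul]
    refine ⟨fb_of_sub ρ ⊥ M hρ.le (Or.inl ?_) hN hMN hP hAct hr hT, hAct⟩
    rw [hρ]
    infer_instance
  | step G K N hKN hK h ih =>
    intro hNn T _ ρ hρ M hMN hP hN hr hT
    have hker : (QuotientGroup.mk' K).ker = K := QuotientGroup.ker_mk' K
    have hKρ : ∀ x ∈ K, ρ x = 1 := by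
      intro x hx
      have h1 : x ∈ ρ.ker := by rw [hρ]; exact hKN hx
      exact h1
    let ρ' : G ⧸ K →* T := QuotientGroup.lift K ρ hKρ
    have hρ' : ρ'.ker = N.map (QuotientGroup.mk' K) := by
      ext x
      obtain ⟨x, rfl⟩ := QuotientGroup.mk_surjective x
      rw [MonoidHom.mem_ker]
      constructor
      · intro h1
        have h2 : ρ x = 1 := h1
        have h3 : x ∈ N := by rw [← hρ]; exact h2
        exact ⟨x, h3, rfl⟩
      · rintro ⟨y, hy, hyx⟩
        rw [← hyx]
        have h3 : y ∈ ρ.ker := by rw [hρ]; exact hy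
        exact h3
    have hN'n : (N.map (QuotientGroup.mk' K)).Normal :=
      Subgroup.Normal.map hNn _ (QuotientGroup.mk'_surjective K)
    have hMN' : M.map (QuotientGroup.mk' K) ⊓ N.map (QuotientGroup.mk' K) = ⊥ := by
      rw [eq_bot_iff]
      rintro _ ⟨⟨m, hm, rfl⟩, ⟨n, hn, hnm⟩⟩
      have h1 : n⁻¹ * m ∈ K := QuotientGroup.eq.1 hnm
      have h2 : m ∈ N := by
        have h3 := N.mul_mem hn (hKN h1)
        rwa [mul_inv_cancel_left] at h3
      have h3 : m ∈ M ⊓ N := ⟨hm, h2⟩
      rw [hMN, Subgroup.mem_bot] at h3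
      rw [h3, map_one]
      exact Subgroup.one_mem _
    have hP' : (N.map (QuotientGroup.mk' K) ⊔ M.map (QuotientGroup.mk' K)).FiniteIndex := by
      rw [← Subgroup.map_sup]
      refine ⟨fun h1 => hP.index_ne_zero ?_⟩
      have h2 := Subgroup.index_map_dvd (N ⊔ M) (QuotientGroup.mk'_surjective K)
      rw [h1] at h2
      exact Nat.eq_zero_of_zero_dvd h2
    have hVS' : VS (N.map (QuotientGroup.mk' K)) :=
      hN.of_surjective ((QuotientGroup.mk' K).subgroupMap N)
        ((QuotientGroup.mk' K).subgroupMap_surjective N)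
    have hr' : ρ'.range.FiniteIndex := by
      have h1 : ρ.range ≤ ρ'.range := by
        rintro _ ⟨x, rfl⟩
        exact ⟨QuotientGroup.mk x, rfl⟩
      exact Subgroup.finiteIndex_of_le h1
    obtain ⟨h1, h2⟩ := ih hN'n T ρ' hρ' _ hMN' hP' hVS' hr' hT
    have hAct : Act N := act_step K N hK h2
    refine ⟨fb_of_sub (QuotientGroup.mk' K) N M (by rw [hker]; exact hKN) (by rw [hker]; exact hK)
      hN hMN hP hAct ?_ h1, hAct⟩
    rw [MonoidHom.range_eq_top.2 (QuotientGroup.mk'_surjective K)]
    infer_instance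

/-- existence of series -/
theorem pl_of_solv (n : ℕ) : ∀ (G : Type v) [Group G] (N S : Subgroup G), N.Normal → S.Normal →
    S ≤ N → MaxC N → S.relIndex N ≠ 0 → derivedSeries S n = ⊥ → PL G N := by
  induction n with
  | zero =>
    intro G _ N S hN hS hSN hmax hrel hd
    rw [derivedSeries_zero] at hd
    have h1 : Finite N := by
      have h2 : (S.subgroupOf N) = ⊥ := by
        rw [eq_bot_iff]
        intro x hx
        have h3 : (⟨(x : G), hx⟩ : S) ∈ (⊤ : Subgroup S) := trivial
        rw [hd, Subgroup.mem_bot] at h3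
        have h4 : (x : G) = 1 := congrArg Subtype.val h3
        exact Subtype.ext h4
      rw [Subgroup.relIndex, h2, Subgroup.index_bot] at hrel
      exact Nat.finite_of_card_ne_zero hrel
    refine PL.step G N N le_rfl (Or.inl h1) ?_
    have h2 : N.map (QuotientGroup.mk' N) = ⊥ := by
      rw [Subgroup.map_eq_bot_iff, QuotientGroup.ker_mk']
    rw [h2]
    exact PL.bot _
  | succ n ih =>
    intro G _ N S hN hS hSN hmax hrel hd
    have hKn : ((derivedSeries S n).map S.subtype).Normal := inferInstance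
    set K := (derivedSeries S n).map S.subtype with hK
    have hKS : K ≤ S := by
      rintro _ ⟨y, _, rfl⟩
      exact y.2
    have hab : ∀ a ∈ K, ∀ b ∈ K, a * b = b * a := by
      rintro _ ⟨a, ha, rfl⟩ _ ⟨b, hb, rfl⟩
      have h1 : ⁅a, b⁆ ∈ derivedSeries S (n + 1) := by
        rw [derivedSeries_succ]
        exact Subgroup.commutator_mem_commutator ha hb
      rw [hd, Subgroup.mem_bot, commutatorElement_eq_one_iff_mul_comm] at h1
      exact congrArg Subtype.val h1
    have hKfg : K.FG := by
      rw [← Group.fg_iff_subgroup_fg]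
      let f : K →* N :=
        { toFun := fun x => ⟨(x : G), hSN (hKS x.2)⟩
          map_one' := rfl
          map_mul' := fun _ _ => rfl }
      have hf : Function.Injective f := by
        intro x y hxy
        have h1 : ((f x : N) : G) = ((f y : N) : G) := congrArg Subtype.val hxy
        exact Subtype.ext h1
      exact (hmax.of_injective f hf).fg
    refine PL.step G K N (hKS.trans hSN) (Or.inr ⟨hab, hKfg⟩) ?_
    have hs := QuotientGroup.mk'_surjective K
    refine ih (G ⧸ K) (N.map (QuotientGroup.mk' K)) (S.map (QuotientGroup.mk' K))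
      (Subgroup.Normal.map hN _ hs) (Subgroup.Normal.map hS _ hs) (Subgroup.map_mono hSN)
      (hmax.of_surjective ((QuotientGroup.mk' K).subgroupMap N)
        ((QuotientGroup.mk' K).subgroupMap_surjective N)) ?_ ?_
    · rw [← Subgroup.relIndex_comap]
      intro h1
      have h2 := Subgroup.relIndex_dvd_of_le_left N (Subgroup.le_comap_map (QuotientGroup.mk' K) S)
      rw [h1] at h2
      exact hrel (Nat.eq_zero_of_zero_dvd h2)
    · rw [← map_derivedSeries_eq ((QuotientGroup.mk' K).subgroupMap_surjective S) n]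
      rw [eq_bot_iff]
      rintro _ ⟨y, hy, rfl⟩
      rw [Subgroup.mem_bot]
      apply Subtype.ext
      change (QuotientGroup.mk (y : G) : G ⧸ K) = 1
      rw [QuotientGroup.eq_one_iff]
      exact ⟨y, hy, rfl⟩

theorem pl_of_vs {G : Type v} [Group G] (N : Subgroup G) [hNn : N.Normal] (hN : VS N) :
    PL G N := by
  obtain ⟨hmax, S, hS, hs⟩ := hN
  have hfg : Group.FG N := hmax.fg
  have hci := Pool.Agent.TH107.LB.core_fi N S.index
  have hcc := Pool.Agent.TH107.LB.core_char N S.index
  have hcl := Pool.Agent.TH107.LB.core_le N hS.index_ne_zero S rfl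
  set C := Pool.Agent.TH107.LB.core N S.index with hC
  have hCs : Group.IsSolvable (C.map N.subtype) := by
    let f : C.map N.subtype →* S :=
      { toFun := fun x => ⟨⟨(x : G), by
            obtain ⟨y, _, hy⟩ := x.2
            rw [← hy]; exact y.2⟩, by
            obtain ⟨y, hyC, hy⟩ := x.2
            have h1 : (⟨(x : G), by rw [← hy]; exact y.2⟩ : N) = y := Subtype.ext hy.symm
            rw [h1]
            exact hcl hyC⟩
        map_one' := rfl
        map_mul' := fun _ _ => rfl }
    have hf : Function.Injective f := by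
      intro x y hxy
      have h1 : (((f x : S) : N) : G) = (((f y : S) : N) : G) := congrArg (fun z : S => ((z : N) : G)) hxy
      exact Subtype.ext h1
    exact Group.isSolvable_of_isSolvable_injective hf
  obtain ⟨n, hn⟩ := hCs
  refine pl_of_solv n G N (C.map N.subtype) hNn inferInstance ?_ hmax ?_ hn
  · rintro _ ⟨y, _, rfl⟩
    exact y.2
  · rw [Subgroup.relIndex, Subgroup.subgroupOf,
      Subgroup.comap_map_eq_self_of_injective N.subtype_injective]
    exact hci.index_ne_zero

/-- Lifting over an algebraically closed field. -/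
theorem fb_lift {k : Type u} [Field k] [IsAlgClosed k] {G : Type v} [Group G] (N M : Subgroup G)
    [hNn : N.Normal] (hN : VS N) (hMN : M ⊓ N = ⊥) (hP : (N ⊔ M).FiniteIndex)
    (hQ : FB k (G ⧸ N)) : FB k G := by
  refine (fb_of_pl (pl_of_vs N hN) hNn (G ⧸ N) (QuotientGroup.mk' N) (QuotientGroup.ker_mk' N) M
    hMN hP hN ?_ hQ).1
  rw [MonoidHom.range_eq_top.2 (QuotientGroup.mk'_surjective N)]
  infer_instance

open Pool.Agent.H26R2.IdemLI (ch) in
/-- descent to subrings -/
theorem bass_desc (R : Type u) [CommRing R] [IsDomain R] {k : Type w} [Field k] (θ : R →+* k)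
    (hθ : Function.Injective θ) {G : Type v} [Group G] (h : BassFor k G) : BassFor R G := by
  intro n A hA g hg
  have hA' : A * A = A := hA
  change tau A g = 0
  rw [tau_eq]
  by_cases hfin : orderOf g = 0
  swap
  · exact tf_zero_of_finite A hA' g hfin hg
  have h1 := h n (A.map (ch θ G)) (by
    change A.map (ch θ G) * A.map (ch θ G) = A.map (ch θ G)
    rw [← Matrix.map_mul, hA']) g (by rw [hfin, Nat.cast_zero]; exact not_isUnit_zero)
  change tau (A.map (ch θ G)) g = 0 at h1
  rw [tau_eq, tf_ch] at h1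
  exact hθ (by rw [h1, map_zero])

end Pool.Agent.H92.Bs
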