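import Pool.Agent.H92.Bs.Ind
import Pool.Agent.H26R2.Bass.Ext

set_option autoImplicit false

/-!
Twisted maps of group algebras and orthogonality of characters.
-/

namespace Pool.Agent.H92.Bs

open MonoidAlgebra
open Pool.Agent.H23R2.Cyc (ell ell_single ell_mul_comm ell_eq_sum tf tf_apply tf_mul_comm)
open Pool.Agent.H26R2.Bass

universe u v w x

section

variable {k : Type u} [CommRing k] {S : Type v} [Group S]

lemma ell_add' (F G : S → k) (a : MonoidAlgebra k S) :
    ell (fun s => F s + G s) a = ell F a + ell G a := by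
  induction a using MonoidAlgebra.induction_linear with
  | zero => simp
  | add a b ha hb => rw [map_add, ha, hb, map_add, map_add]; ring
  | single g r => rw [ell_single, ell_single, ell_single, mul_add]

lemma ell_mul' (c : k) (F : S → k) (a : MonoidAlgebra k S) :
    ell (fun s => c * F s) a = c * ell F a := by
  induction a using MonoidAlgebra.induction_linear with
  | zero => simp
  | add a b ha hb => rw [map_add, ha, hb, map_add]; ring
  | single g r => rw [ell_single, ell_single]; ring

lemma ell_zero' (a : MonoidAlgebra k S) : ell (fun _ : S => (0 : k)) a = 0 := by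
  induction a using MonoidAlgebra.induction_linear with
  | zero => simp
  | add a b ha hb => rw [map_add, ha, hb, add_zero]
  | single g r => rw [ell_single, mul_zero]

lemma ell_sum' {ι : Type*} (T : Finset ι) (F : ι → S → k) (a : MonoidAlgebra k S) :
    ell (fun s => ∑ i ∈ T, F i s) a = ∑ i ∈ T, ell (F i) a := by
  classical
  induction T using Finset.induction_on with
  | empty => simp only [Finset.sum_empty]; exact ell_zero' a
  | insert i T hi ih =>
    have h1 : (fun s => ∑ i ∈ insert i T, F i s) = fun s => F i s + ∑ i ∈ T, F i s := by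
      funext s
      rw [Finset.sum_insert hi]
    rw [Finset.sum_insert hi, ← ih, ← ell_add', h1]

lemma tf_mul' {n : ℕ} (c : k) (F : S → k) (B : Matrix (Fin n) (Fin n) (MonoidAlgebra k S)) :
    tf (fun s => c * F s) B = c * tf F B := by
  rw [tf_apply, tf_apply, Finset.mul_sum]
  exact Finset.sum_congr rfl fun i _ => ell_mul' c F _

lemma tf_sub' {n : ℕ} (F G : S → k) (B : Matrix (Fin n) (Fin n) (MonoidAlgebra k S)) :
    tf (fun s => F s - G s) B = tf F B - tf G B := by
  rw [tf_apply, tf_apply, tf_apply, ← Finset.sum_sub_distrib]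
  refine Finset.sum_congr rfl fun i _ => ?_
  have h1 := ell_add' F (fun s => (-1) * G s) (B i i)
  rw [ell_mul'] at h1
  have h2 : (fun s => F s - G s) = fun s => F s + (-1) * G s := by
    funext s
    ring
  rw [h2, h1]
  ring

lemma tf_sum' {n : ℕ} {ι : Type*} (T : Finset ι) (F : ι → S → k)
    (B : Matrix (Fin n) (Fin n) (MonoidAlgebra k S)) :
    tf (fun s => ∑ i ∈ T, F i s) B = ∑ i ∈ T, tf (F i) B := by
  rw [tf_apply]
  simp only [tf_apply]
  rw [Finset.sum_comm]
  exact Finset.sum_congr rfl fun i _ => ell_sum' T F _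

/-- the twisted homomorphism of group algebras -/
noncomputable def twi {Q : Type w} [Group Q] (χ : S →* kˣ) (π : S →* Q) :
    MonoidAlgebra k S →ₐ[k] MonoidAlgebra k Q :=
  MonoidAlgebra.lift k _ S
    { toFun := fun s => single (π s) (χ s : k)
      map_one' := by rw [map_one, map_one]; rfl
      map_mul' := fun s t => by
        rw [map_mul, map_mul, single_mul_single, Units.val_mul] }

lemma twi_single {Q : Type w} [Group Q] (χ : S →* kˣ) (π : S →* Q) (s : S) (r : k) :
    twi χ π (single s r) = single (π s) (r * (χ s : k)) := by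
  unfold twi
  rw [MonoidAlgebra.lift_single]
  change r • single (π s) (χ s : k) = _
  rw [smul_single, smul_eq_mul]

lemma ell_twi {Q : Type w} [Group Q] (χ : S →* kˣ) (π : S →* Q) (F : Q → k)
    (a : MonoidAlgebra k S) :
    ell F (twi χ π a) = ell (fun s => (χ s : k) * F (π s)) a := by
  induction a using MonoidAlgebra.induction_linear with
  | zero => simp
  | add a b ha hb => rw [map_add, map_add, ha, hb, map_add]
  | single g r => rw [twi_single, ell_single, ell_single, mul_assoc]

theorem tf_twi {Q : Type w} [Group Q] (χ : S →* kˣ) (π : S →* Q) (F : Q → k)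
    (hF : ∀ (n : ℕ) (B : Matrix (Fin n) (Fin n) (MonoidAlgebra k Q)), B * B = B → tf F B = 0)
    {n : ℕ} (B : Matrix (Fin n) (Fin n) (MonoidAlgebra k S)) (hB : B * B = B) :
    tf (fun s => (χ s : k) * F (π s)) B = 0 := by
  let φ : MonoidAlgebra k S →+* MonoidAlgebra k Q := (twi χ π).toRingHom
  have h1 := hF n (B.map φ) (by rw [← Matrix.map_mul, hB])
  rw [tf_apply] at h1 ⊢
  rw [← h1]
  refine Finset.sum_congr rfl fun i _ => ?_
  exact (ell_twi χ π F (B i i)).symm

end

section

variable {k : Type u} [Field k] [IsAlgClosed k] {C : Type x} [CommGroup C] [Finite C]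

open Classical in
/-- orthogonality -/
theorem orth (hC : ((Nat.card C : ℕ) : k) ≠ 0) [Fintype (C →* kˣ)] (c : C) :
    ∑ χ : C →* kˣ, (χ c : k) = if c = 1 then ((Nat.card C : ℕ) : k) else 0 := by
  have hn : ((Monoid.exponent C : ℕ) : k) ≠ 0 := by
    intro h
    apply hC
    obtain ⟨d, hd⟩ := Group.exponent_dvd_nat_card (G := C)
    rw [hd, Nat.cast_mul, h, zero_mul]
  have : NeZero ((Monoid.exponent C : ℕ) : k) := ⟨hn⟩
  have : HasEnoughRootsOfUnity k (Monoid.exponent C) := inferInstance
  split_ifs with h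
  · subst h
    simp only [map_one, Units.val_one, Finset.sum_const, Finset.card_univ, nsmul_eq_mul, mul_one]
    rw [← CommGroup.card_monoidHom_of_hasEnoughRootsOfUnity C k, Nat.card_eq_fintype_card]
  · obtain ⟨φ, hφ⟩ := CommGroup.exists_apply_ne_one_of_hasEnoughRootsOfUnity C k h
    have h1 : ∑ χ : C →* kˣ, ((φ * χ) c : k) = ∑ χ : C →* kˣ, (χ c : k) :=
      Fintype.sum_equiv (Equiv.mulLeft φ) _ _ fun χ => rfl
    have h2 : ∑ χ : C →* kˣ, ((φ * χ) c : k) = (φ c : k) * ∑ χ : C →* kˣ, (χ c : k) := by
      rw [Finset.mul_sum]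
      refine Finset.sum_congr rfl fun χ _ => ?_
      rw [MonoidHom.mul_apply, Units.val_mul]
    rw [h2] at h1
    have h3 : ((φ c : k) - 1) * ∑ χ : C →* kˣ, (χ c : k) = 0 := by
      rw [sub_mul, h1, one_mul, sub_self]
    rcases mul_eq_zero.1 h3 with h4 | h4
    · exfalso
      apply hφ
      apply Units.ext
      rw [Units.val_one]
      exact sub_eq_zero.1 h4
    · exact h4

open Classical in
/-- separating the elements of a finite abelian quotient -/
theorem tf_sep {S : Type v} [Group S] {Q : Type w} [Group Q]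
    (hC : ((Nat.card C : ℕ) : k) ≠ 0) (f : S →* C) (π : S →* Q) (F : Q → k)
    (hF : ∀ (n : ℕ) (B : Matrix (Fin n) (Fin n) (MonoidAlgebra k Q)), B * B = B → tf F B = 0)
    (c : C) {n : ℕ} (B : Matrix (Fin n) (Fin n) (MonoidAlgebra k S)) (hB : B * B = B) :
    tf (fun s => if f s = c then F (π s) else 0) B = 0 := by
  have hn : ((Monoid.exponent C : ℕ) : k) ≠ 0 := by
    intro h
    apply hC
    obtain ⟨d, hd⟩ := Group.exponent_dvd_nat_card (G := C)
    rw [hd, Nat.cast_mul, h, zero_mul]
  have : NeZero ((Monoid.exponent C : ℕ) : k) := ⟨hn⟩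
  have : HasEnoughRootsOfUnity k (Monoid.exponent C) := inferInstance
  have : Finite (C →* kˣ) := by
    apply Nat.finite_of_card_ne_zero
    rw [CommGroup.card_monoidHom_of_hasEnoughRootsOfUnity C k]
    exact Nat.card_pos.ne'
  let : Fintype (C →* kˣ) := Fintype.ofFinite _
  have h1 : (fun s => ((Nat.card C : ℕ) : k) * (if f s = c then F (π s) else 0)) =
      fun s => ∑ χ : C →* kˣ, (χ c⁻¹ : k) * (((χ.comp f) s : k) * F (π s)) := by
    funext s
    have h2 := orth hC (c⁻¹ * f s)
    have h3 : ∑ χ : C →* kˣ, (χ c⁻¹ : k) * (((χ.comp f) s : k) * F (π s)) =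
        (∑ χ : C →* kˣ, (χ (c⁻¹ * f s) : k)) * F (π s) := by
      rw [Finset.sum_mul]
      refine Finset.sum_congr rfl fun χ _ => ?_
      rw [map_mul, Units.val_mul, MonoidHom.comp_apply]
      ring
    rw [h3, h2]
    by_cases h : f s = c
    · rw [if_pos h, if_pos (by rw [h, inv_mul_cancel])]
    · rw [if_neg h, if_neg (fun h' => h (inv_mul_eq_one.1 h').symm)]
      ring
  have h4 : ((Nat.card C : ℕ) : k) * tf (fun s => if f s = c then F (π s) else 0) B = 0 := by
    rw [← tf_mul', h1, tf_sum']
    apply Finset.sum_eq_zero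
    intro χ _
    rw [tf_mul', tf_twi (χ.comp f) π F hF B hB, mul_zero]
  exact (mul_eq_zero.1 h4).resolve_left hC

end

end Pool.Agent.H92.Bs
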