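import Pool.Agent.H92.Bs.Act

set_option autoImplicit false

/-!
Divisible elements of virtually split extensions; finite quotients of virtually split extensions.
-/

namespace Pool.Agent.H92.Bs

open Pool.Agent.Helper611.PcGrp (MaxC exists_avoid)
open Pool.Agent.TH107.LB (core core_char core_fi core_le)

universe u v w

/-- chains of roots in groups with the maximal condition -/
theorem acc_chain {Γ : Type v} [Group Γ] (h : MaxC Γ) {q : ℕ} (hq : 2 ≤ q) (b : ℕ → Γ)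
    (hb : ∀ i, b (i + 1) ^ q = b i) : ∃ t : ℕ, 1 ≤ t ∧ b 0 ^ t = 1 := by
  have hwf := h.wf
  have hmono : Monotone fun i => Subgroup.zpowers (b i) := by
    apply monotone_nat_of_le_succ
    intro i
    rw [Subgroup.zpowers_le, ← hb i]
    exact Subgroup.pow_mem _ (Subgroup.mem_zpowers _) _
  obtain ⟨n, hn⟩ := (wellFoundedGT_iff_monotone_chain_condition.1 hwf) ⟨_, hmono⟩
  have h1 : Subgroup.zpowers (b n) = Subgroup.zpowers (b (n + 1)) := hn (n + 1) (by omega)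
  have h2 : b (n + 1) ∈ Subgroup.zpowers (b n) := by
    rw [h1]; exact Subgroup.mem_zpowers _
  obtain ⟨m, hm⟩ := Subgroup.mem_zpowers_iff.1 h2
  rw [← hb n, ← zpow_natCast, ← zpow_mul] at hm
  have h3 : b (n + 1) ^ ((q : ℤ) * m - 1) = 1 := by
    rw [zpow_sub_one, hm, mul_inv_cancel]
  have h4 : (q : ℤ) * m - 1 ≠ 0 := by
    intro h5
    have h6 : (q : ℤ) ∣ 1 := ⟨m, by linarith⟩
    have h7 : q ∣ 1 := by exact_mod_cast h6
    have h8 := Nat.le_of_dvd one_pos h7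
    omega
  have h5 : IsOfFinOrder (b (n + 1)) := by
    rw [isOfFinOrder_iff_zpow_eq_one]
    exact ⟨_, h4, h3⟩
  have h6 : ∀ i, IsOfFinOrder (b i) → IsOfFinOrder (b 0) := by
    intro i
    induction i with
    | zero => exact id
    | succ i ih =>
      intro h7
      apply ih
      rw [← hb i]
      exact h7.pow
  have h7 := h6 _ h5
  exact ⟨orderOf (b 0), h7.orderOf_pos, pow_orderOf_eq_one _⟩

section

variable {G : Type v} [Group G]

/-- powers of divisible elements lie in the virtual complement -/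
theorem in_compl (N M : Subgroup G) [N.Normal] (hMN : M ⊓ N = ⊥) (hfi : (N ⊔ M).FiniteIndex)
    (hN : MaxC N) (hAct : Act N) (p j : ℕ) (h : G) (hp : p.Prime) (hj : 1 ≤ j)
    (hc : IsConj h (h ^ p ^ j)) :
    ∃ r : ℕ, 1 ≤ r ∧ h ^ r ∈ M ∧ ∀ n ∈ N, h ^ r * n = n * h ^ r := by
  obtain ⟨r, hr, h1⟩ := hAct p j h hp hj hc
  obtain ⟨y, hy⟩ := isConj_iff.1 hc
  set P := (N ⊔ M).normalCore with hP
  have hPi : P.FiniteIndex := inferInstance
  set i := P.index with hi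
  have hi0 : 1 ≤ i := Nat.one_le_iff_ne_zero.2 hPi.index_ne_zero
  set g := h ^ (r * i) with hg
  have hgP : g ∈ N ⊔ M := by
    apply (N ⊔ M).normalCore_le
    rw [hg, mul_comm, pow_mul, ← hP]
    exact P.pow_mem (P.pow_index_mem h) r |> fun h2 => by
      rw [← pow_mul] at h2 ⊢
      exact h2
  have hgN : ∀ n ∈ N, g * n = n * g := by
    have h3 : ∀ l : ℕ, ∀ n ∈ N, (h ^ r) ^ l * n = n * (h ^ r) ^ l := by
      intro l
      induction l with
      | zero => intro n _; simp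
      | succ l ih =>
        intro n hn
        rw [pow_succ, mul_assoc, h1 n hn, ← mul_assoc, ih n hn, mul_assoc]
    intro n hn
    rw [hg, pow_mul]
    exact h3 i n hn
  have hyg : y * g * y⁻¹ = g ^ p ^ j := by
    rw [hg, ← conj_pow, hy, ← pow_mul, ← pow_mul, mul_comm]
  set z := y ^ i with hz
  have hzP : z ∈ N ⊔ M := (N ⊔ M).normalCore_le (P.pow_index_mem y)
  set q := (p ^ j) ^ i with hq
  have hq2 : 2 ≤ q := by
    have h2 : 2 ≤ p ^ j := hp.two_le.trans (Nat.le_self_pow (by omega) p)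
    exact h2.trans (Nat.le_self_pow (by omega) _)
  have hzg : z * g * z⁻¹ = g ^ q := conj_iter hyg i
  obtain ⟨n, hn, m, hm, hnm⟩ := Subgroup.mem_sup_of_normal_left.1 hgP
  obtain ⟨n₁, hn₁, m₁, hm₁, hnm₁⟩ := Subgroup.mem_sup_of_normal_left.1 hzP
  have hm₁g : m₁ * g * m₁⁻¹ = g ^ q := by
    have e1 : m₁ = n₁⁻¹ * z := by rw [← hnm₁, inv_mul_cancel_left]
    have e2 : m₁ * g * m₁⁻¹ = n₁⁻¹ * (z * g * z⁻¹) * n₁ := by rw [e1]; group
    have e3 : g ^ q * n₁ = n₁ * g ^ q := by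
      have e4 : Commute g n₁ := hgN n₁ hn₁
      exact e4.pow_left q
    rw [e2, hzg, mul_assoc, e3, inv_mul_cancel_left]
  have hcm : Commute n m := by
    have e1 : m = n⁻¹ * g := by rw [← hnm, inv_mul_cancel_left]
    have e2 : Commute g n := hgN n hn
    rw [e1]
    exact ((Commute.refl n).inv_right).mul_right e2.symm
  have hsplit : m₁ * n * m₁⁻¹ = n ^ q := by
    have e1 : (m₁ * n * m₁⁻¹) * (m₁ * m * m₁⁻¹) = n ^ q * m ^ q := by
      rw [← hcm.mul_pow, hnm, ← hm₁g, ← hnm]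
      group
    have e2 : (n ^ q)⁻¹ * (m₁ * n * m₁⁻¹) = m ^ q * (m₁ * m * m₁⁻¹)⁻¹ := by
      rw [inv_mul_eq_iff_eq_mul, ← mul_assoc, eq_mul_inv_iff_mul_eq]
      exact e1
    have e3 : (n ^ q)⁻¹ * (m₁ * n * m₁⁻¹) ∈ M ⊓ N := by
      refine ⟨?_, ?_⟩
      · rw [e2]
        exact M.mul_mem (M.pow_mem hm q) (M.inv_mem (M.mul_mem (M.mul_mem hm₁ hm) (M.inv_mem hm₁)))
      · exact N.mul_mem (N.inv_mem (N.pow_mem hn q)) (Subgroup.Normal.conj_mem inferInstance n hn m₁)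
    rw [hMN, Subgroup.mem_bot] at e3
    exact (inv_mul_eq_one.1 e3).symm
  obtain ⟨t, ht, h2⟩ := acc_chain hN hq2 (fun l => (⟨(m₁ ^ l)⁻¹ * n * m₁ ^ l, by
    have h3 := Subgroup.Normal.conj_mem (inferInstance : N.Normal) n hn (m₁ ^ l)⁻¹
    rwa [inv_inv] at h3⟩ : N)) (fun l => by
      apply Subtype.ext
      change ((m₁ ^ (l + 1))⁻¹ * n * m₁ ^ (l + 1)) ^ q = (m₁ ^ l)⁻¹ * n * m₁ ^ l
      have h3 := conj_pow (i := q) (a := (m₁ ^ (l + 1))⁻¹) (b := n)
      rw [inv_inv] at h3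
      rw [h3, ← hsplit, pow_succ']
      group)
  have h3 : n ^ t = 1 := by
    have h4 := congrArg Subtype.val h2
    change ((m₁ ^ 0)⁻¹ * n * m₁ ^ 0) ^ t = 1 at h4
    rwa [pow_zero, inv_one, one_mul, mul_one] at h4
  refine ⟨r * i * t, Nat.mul_pos (Nat.mul_pos hr hi0) ht, ?_, ?_⟩
  · rw [pow_mul, ← hg, ← hnm, hcm.mul_pow, h3, one_mul]
    exact M.pow_mem hm t
  · intro x hx
    rw [pow_mul, ← hg]
    exact (show Commute g x from hgN x hx).pow_left t

end

end Pool.Agent.H92.Bs
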