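import Pool.Agent.H92.Bs.Fin
import Pool.Agent.H92.Bs.Glt

set_option autoImplicit false

/-!
The inductive step: lifting the conjecture through a finite or abelian normal subgroup.
-/

namespace Pool.Agent.H92.Bs

open MonoidAlgebra
open Pool.Agent.Helper611.PcGrp (MaxC exists_avoid)
open Pool.Agent.H23R2.Cyc (ell tf tf_apply)
open Pool.Agent.H26R2.Bass
open Pool.Agent.H26R2.IdemLI (AlmostDiv)

universe u v w

/-- every subgroup of finite index satisfies the conjecture -/
def FB (k : Type u) [CommRing k] [IsDomain k] (Q : Type v) [Group Q] : Prop :=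
  ∀ S : Subgroup Q, S.FiniteIndex → BassFor k S

theorem div_of_not_good {k : Type u} [Field k] {G : Type v} [Group G] {h : G}
    (hh : ¬ Good k h) : ∃ p j : ℕ, p.Prime ∧ 1 ≤ j ∧ IsConj h (h ^ p ^ j) := by
  obtain ⟨p, hp⟩ := CharP.exists k
  rcases CharP.char_is_prime_or_zero k p with hpp | rfl
  · by_contra hcon
    apply hh
    refine Or.inr (Or.inl ⟨p, hpp, ?_, fun j hj hc => hcon ⟨p, j, hpp, hj, hc⟩⟩)
    rw [CharP.cast_eq_zero]
    exact not_isUnit_zero
  · have : CharZero k := CharP.charP_to_charZero k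
    have h1 : AlmostDiv h := by
      by_contra h1
      exact hh (Or.inr (Or.inr ⟨this, h1⟩))
    obtain ⟨m, J, hm, hJ, h2⟩ := h1
    obtain ⟨p, hp1, hp2⟩ := Nat.exists_infinite_primes (m + 1)
    refine ⟨p, J, hp2, hJ, h2 p ((Nat.Prime.coprime_iff_not_dvd hp2).2 ?_)⟩
    intro hd
    have := Nat.le_of_dvd (by omega) hd
    omega

/-- the exponent of the torsion subgroup -/
theorem tors_exp (A : Type v) [CommGroup A] [Group.FG A] :
    ∃ t : ℕ, 1 ≤ t ∧ ∀ x : A, (∃ n : ℕ, 1 ≤ n ∧ x ^ n = 1) → x ^ t = 1 := by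
  classical
  obtain ⟨ι, j, hι, hj, q, hq, e, ⟨φ⟩⟩ := CommGroup.equiv_free_prod_prod_multiplicative_zmod A
  have hne : ∀ i, NeZero (q i ^ e i) := fun i => ⟨pow_ne_zero _ (hq i).ne_zero⟩
  have hB : Finite ((i : ι) → Multiplicative (ZMod (q i ^ e i))) := by
    have : ∀ i, Finite (Multiplicative (ZMod (q i ^ e i))) := fun i =>
      inferInstanceAs (Finite (ZMod (q i ^ e i)))
    infer_instance
  refine ⟨Nat.card ((i : ι) → Multiplicative (ZMod (q i ^ e i))), Nat.card_pos, ?_⟩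
  rintro x ⟨n, hn, hx⟩
  apply φ.injective
  rw [map_pow, map_one]
  refine Prod.ext ?_ ?_
  · have h1 : (φ x).1 = 1 := by
      have h2 : (φ x).1 ^ n = 1 := by
        have h3 : φ x ^ n = 1 := by rw [← map_pow, hx, map_one]
        exact congrArg Prod.fst h3
      funext i
      have h3 : ((φ x).1 i) ^ n = 1 := congrFun h2 i
      have h4 : n • Multiplicative.toAdd ((φ x).1 i) = 0 := h3
      have h5 : Multiplicative.toAdd ((φ x).1 i) = 0 := by
        rw [nsmul_eq_mul] at h4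
        rcases mul_eq_zero.1 h4 with h6 | h6
        · have h7 : n = 0 := by exact_mod_cast h6
          omega
        · exact h6
      exact h5
    change (φ x).1 ^ _ = 1
    rw [h1, one_pow]
  · change (φ x).2 ^ _ = 1
    exact pow_card_eq_one'

/-- partial norms -/
def nm {A : Type v} [CommGroup A] (θ : A →* A) (u : A) : ℕ → A
  | 0 => 1
  | i + 1 => θ (nm θ u i) * u

theorem nm_pow {A : Type v} [CommGroup A] (θ : A →* A) (u : A) (n i : ℕ) :
    nm θ (u ^ n) i = nm θ u i ^ n := by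
  induction i with
  | zero => exact (one_pow n).symm
  | succ i ih =>
    change θ (nm θ (u ^ n) i) * u ^ n = (θ (nm θ u i) * u) ^ n
    rw [ih, mul_pow, map_pow]

theorem exists_cob {A : Type v} [CommGroup A] (θ : A →* A) (u : A) (r : ℕ) (h : nm θ u r = 1) :
    ∃ c, u ^ r = θ c * c⁻¹ := by
  have key : ∀ i, ∃ c, nm θ u i = θ c * c⁻¹ * u ^ i := by
    intro i
    induction i with
    | zero => exact ⟨1, by simp [nm]⟩
    | succ i ih =>
      obtain ⟨c, hc⟩ := ih
      refine ⟨nm θ u i * c, ?_⟩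
      change θ (nm θ u i) * u = _
      rw [map_mul, mul_inv_rev, pow_succ]
      have e1 : θ (nm θ u i) * θ c * (c⁻¹ * (nm θ u i)⁻¹) * (u ^ i * u) =
          θ (nm θ u i) * (nm θ u i)⁻¹ * (θ c * c⁻¹ * u ^ i) * u := by
        simp only [mul_assoc, mul_left_comm, mul_comm]
      rw [e1, ← hc, inv_mul_cancel_right]
  obtain ⟨c, hc⟩ := key r
  refine ⟨c⁻¹, ?_⟩
  rw [h] at hc
  rw [map_inv, inv_inv]
  have e1 : u ^ r = (θ c * c⁻¹)⁻¹ := by
    rw [eq_inv_iff_mul_eq_one, mul_comm, ← hc]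
  rw [e1, mul_inv_rev, inv_inv, mul_comm]

section

variable {G : Type v} [Group G]

/-- the commutative group structure -/
@[reducible] def cgr (K : Subgroup G) (hab : ∀ a ∈ K, ∀ b ∈ K, a * b = b * a) : CommGroup K :=
  { (inferInstance : Group K) with mul_comm := fun a b => Subtype.ext (hab a a.2 b b.2) }

/-- powers of `g z` -/
theorem pow_nm (K : Subgroup G) [K.Normal] (hab : ∀ a ∈ K, ∀ b ∈ K, a * b = b * a) (g : G) (z : K)
    (i : ℕ) :
    (g * z) ^ i = g ^ i *
      ((@nm K (cgr K hab) (MulAut.conjNormal g⁻¹ : MulAut K).toMonoidHom z i : K) : G) := by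
  let _ : CommGroup K := cgr K hab
  induction i with
  | zero => simp [nm]
  | succ i ih =>
    have e1 : ((nm (MulAut.conjNormal g⁻¹ : MulAut K).toMonoidHom z (i + 1) : K) : G) =
        g⁻¹ * (nm (MulAut.conjNormal g⁻¹ : MulAut K).toMonoidHom z i : K) * g * z := by
      change (((MulAut.conjNormal g⁻¹ : MulAut K)
        (nm (MulAut.conjNormal g⁻¹ : MulAut K).toMonoidHom z i) : K) : G) * z = _
      rw [MulAut.conjNormal_apply, inv_inv]
    rw [pow_succ, ih, e1, pow_succ]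
    group

theorem mul_comm_pow {g n : G} (h : g * n = n * g) (i : ℕ) : g ^ i * n = n * g ^ i :=
  (show Commute g n from h).pow_left i

/-- the inductive step -/
theorem bass_step {k : Type u} [Field k] [IsAlgClosed k] {Q : Type w} [Group Q] (π : G →* Q)
    (N M : Subgroup G) [N.Normal] (hKN : π.ker ≤ N)
    (hK : Finite π.ker ∨ ((∀ a ∈ π.ker, ∀ b ∈ π.ker, a * b = b * a) ∧ π.ker.FG))
    (hN : VS N) (hMN : M ⊓ N = ⊥) (hP : (N ⊔ M).FiniteIndex) (hAct : Act N)
    (hr : π.range.FiniteIndex) (hQ : FB k Q) : BassFor k G := by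
  classical
  intro n A hA g hg
  have hA' : A * A = A := hA
  change tau A g = 0
  rw [tau_eq]
  by_cases hfin : orderOf g = 0
  swap
  · exact tf_zero_of_finite A hA' g hfin hg
  by_contra hne
  have hng : ¬ Good k g := fun h => hne (tf_zero_of_good A hA' g h)
  obtain ⟨p, j, hp, hj, hc⟩ := div_of_not_good hng
  obtain ⟨r, hr1, hrM, hrN⟩ := in_compl N M hMN hP hN.1 hAct p j g hp hj hc
  have hinfg : ∀ l : ℕ, 0 < l → g ^ l ≠ 1 := orderOf_eq_zero_iff'.1 hfin
  have hinf : orderOf (π g) = 0 := by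
    rw [orderOf_eq_zero_iff']
    intro l hl h1
    rw [← map_pow] at h1
    have h2 : g ^ l ∈ N := hKN h1
    have h3 : g ^ (r * l) ∈ M ⊓ N := by
      refine ⟨?_, ?_⟩
      · rw [pow_mul]; exact M.pow_mem hrM l
      · rw [mul_comm, pow_mul]; exact N.pow_mem h2 r
    rw [hMN, Subgroup.mem_bot] at h3
    exact hinfg _ (Nat.mul_pos hr1 hl) h3
  have hQ' : ∀ S : Subgroup G, S.FiniteIndex → BassFor k (S.map π) := by
    intro S hS
    apply hQ
    refine ⟨?_⟩
    rw [Subgroup.index_map]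
    refine Nat.mul_ne_zero ?_ hr.index_ne_zero
    have h1 : (S ⊔ π.ker).FiniteIndex := Subgroup.finiteIndex_of_le (le_sup_left : S ≤ S ⊔ π.ker)
    exact h1.index_ne_zero
  -- elements with the same image
  have hdiff : ∀ y, ¬ Good k y → π y = π g → ∃ r' : ℕ, 1 ≤ r' ∧ y ^ (r * r') = g ^ (r * r') := by
    intro y hy hπ
    obtain ⟨p', j', hp', hj', hc'⟩ := div_of_not_good hy
    obtain ⟨r', hr'1, hr'M, hr'N⟩ := in_compl N M hMN hP hN.1 hAct p' j' y hp' hj' hc'
    refine ⟨r', hr'1, ?_⟩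
    have h1 : (y ^ (r * r'))⁻¹ * g ^ (r * r') ∈ M ⊓ N := by
      refine ⟨M.mul_mem (M.inv_mem ?_) ?_, hKN ?_⟩
      · rw [mul_comm, pow_mul]; exact M.pow_mem hr'M r
      · rw [pow_mul]; exact M.pow_mem hrM r'
      · rw [MonoidHom.mem_ker, map_mul, map_inv, map_pow, map_pow, hπ, inv_mul_cancel]
    rw [hMN, Subgroup.mem_bot] at h1
    exact inv_mul_eq_one.1 h1
  have hker : ∀ y, π y = π g → g⁻¹ * y ∈ π.ker := by
    intro y hy
    rw [MonoidHom.mem_ker, map_mul, map_inv, hy, inv_mul_cancel]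
  rcases hK with hK | ⟨hab, hfg⟩
  · obtain ⟨M₁, hM₁, hM₁f, hM₁K⟩ := exists_sub N M π.ker ⊥ hKN (by
      rw [Subgroup.relIndex_bot_left]
      exact Nat.card_pos.ne') hN hMN hP
    have hF : Finite (G ⧸ M₁) := Subgroup.finite_quotient_of_finiteIndex
    apply hne
    refine glt (QuotientGroup.mk' M₁) π hQ' g hinf ?_ A hA'
    intro y _ hf hπ
    have h1 : g⁻¹ * y ∈ M₁ ⊓ π.ker := ⟨QuotientGroup.eq.1 hf.symm, hker y hπ⟩
    have h2 := hM₁K h1
    rw [Subgroup.mem_bot] at h2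
    rw [← inv_mul_eq_one.1 h2]
  · let _ : CommGroup π.ker := cgr π.ker hab
    have hfg' : Group.FG π.ker := (Group.fg_iff_subgroup_fg π.ker).2 hfg
    obtain ⟨t, ht, htor⟩ := tors_exp π.ker
    -- the subgroup of powers
    let K₀ : Subgroup G := ((powMonoidHom (t * r) : π.ker →* π.ker).range).map π.ker.subtype
    have hK₀m : ∀ x, x ∈ K₀ → ∃ w : π.ker, (w : G) ^ (t * r) = x := by
      rintro _ ⟨_, ⟨w, rfl⟩, rfl⟩
      exact ⟨w, rfl⟩
    have hK₀n : K₀.Normal := by
      refine ⟨?_⟩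
      rintro _ ⟨_, ⟨w, rfl⟩, rfl⟩ c
      refine ⟨_, ⟨⟨c * w * c⁻¹, Subgroup.Normal.conj_mem inferInstance _ w.2 c⟩, rfl⟩, ?_⟩
      change (c * (w : G) * c⁻¹) ^ (t * r) = c * (w : G) ^ (t * r) * c⁻¹
      exact conj_pow
    have hrel : K₀.relIndex π.ker ≠ 0 := by
      have h1 : K₀.relIndex π.ker = (powMonoidHom (t * r) : π.ker →* π.ker).range.index := by
        rw [Subgroup.relIndex, Subgroup.subgroupOf,
          Subgroup.comap_map_eq_self_of_injective π.ker.subtype_injective]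
      rw [h1]
      have h2 : Group.FG (π.ker ⧸ (powMonoidHom (t * r) : π.ker →* π.ker).range) :=
        Group.fg_of_surjective (f := QuotientGroup.mk' _) (QuotientGroup.mk'_surjective _)
      have h3 : Finite (π.ker ⧸ (powMonoidHom (t * r) : π.ker →* π.ker).range) := by
        apply CommGroup.finite_of_fg_isMulTorsion
        intro x
        obtain ⟨w, rfl⟩ := QuotientGroup.mk_surjective x
        rw [isOfFinOrder_iff_pow_eq_one]
        refine ⟨t * r, Nat.mul_pos ht hr1, ?_⟩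
        rw [← QuotientGroup.mk_pow, QuotientGroup.eq_one_iff]
        exact ⟨w, rfl⟩
      exact Nat.card_pos.ne'
    obtain ⟨M₁, hM₁, hM₁f, hM₁K⟩ := exists_sub N M π.ker K₀ hKN hrel hN hMN hP
    have hF : Finite (G ⧸ M₁) := Subgroup.finite_quotient_of_finiteIndex
    apply hne
    refine glt (QuotientGroup.mk' M₁) π hQ' g hinf ?_ A hA'
    intro y hy hf hπ
    have h1 : g⁻¹ * y ∈ M₁ ⊓ π.ker := ⟨QuotientGroup.eq.1 hf.symm, hker y hπ⟩
    obtain ⟨w, hw⟩ := hK₀m _ (hM₁K h1)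
    let θ : π.ker →* π.ker := (MulAut.conjNormal g⁻¹ : MulAut π.ker).toMonoidHom
    set z : π.ker := w ^ (t * r) with hz
    have hyz : y = g * z := by
      have e1 : (z : G) = g⁻¹ * y := hw
      rw [e1, mul_inv_cancel_left]
    obtain ⟨r', hr', h2⟩ := hdiff y hy hπ
    have h3 := pow_nm π.ker hab g z r
    have h4 : (nm θ z r) ^ r' = 1 := by
      apply Subtype.ext
      change ((nm θ z r : π.ker) : G) ^ r' = 1
      have h5 : y ^ (r * r') = g ^ (r * r') * ((nm θ z r : π.ker) : G) ^ r' := by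
        have h6 : Commute (g ^ r) ((nm θ z r : π.ker) : G) :=
          hrN _ (hKN (nm θ z r).2)
        rw [hyz, pow_mul, pow_mul, ← h6.mul_pow]
        congr 1
      rw [h2] at h5
      exact (mul_eq_left.1 h5.symm)
    have h5 : (nm θ (w ^ t) r) = 1 := by
      rw [nm_pow]
      apply htor
      refine ⟨t * r * r', Nat.mul_pos (Nat.mul_pos ht hr1) hr', ?_⟩
      rw [pow_mul, ← nm_pow]
      exact h4
    obtain ⟨c, hc'⟩ := exists_cob θ (w ^ t) r h5
    have h6 : z = θ c * c⁻¹ := by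
      rw [← hc', hz, pow_mul]
    refine (isConj_iff.2 ⟨(c : G), ?_⟩ : IsConj g y).symm
    have h7 : ((θ c * c⁻¹ : π.ker) : G) = g⁻¹ * c * g * (c : G)⁻¹ := by
      change (((MulAut.conjNormal g⁻¹ : MulAut π.ker) c : π.ker) : G) * (c : G)⁻¹ = _
      rw [MulAut.conjNormal_apply, inv_inv]
    rw [hyz, h6, h7]
    group

end

end Pool.Agent.H92.Bs
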